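import Pool.Agent.H84.PS.Pts

/-!
MP_325208 (helper84): the conic lemma. A cone in a space of dimension three with the Cayley-Bacharach property of degree `m`
and at most `5 m / 2 + 1` rays lies in two planes or in the zero set of a quadratic form without three collinear zeros.
-/

set_option autoImplicit false
set_option linter.unusedSectionVars false

open Module Finset
open scoped Classical

namespace H84.PS

open H8.PS

variable {F : Type*} [Field F] [Fintype F] {V : Type*} [AddCommGroup V] [Module F V] [Fintype V] [FiniteDimensional F V]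

theorem pair_rank_le (a b : V) : finrank F (Submodule.span F {a, b}) ≤ 2 := by
  have h2 := finrank_range_le_card (R := F) ![a, b]
  have h3 : Set.range ![a, b] = {a, b} := by simp [Matrix.range_cons, Set.pair_comm]
  rw [Set.finrank, h3] at h2
  simpa using h2

theorem pair_rank {a b : V} (ha : a ≠ 0) (hb : b ∉ Submodule.span F {a}) :
    finrank F (Submodule.span F {a, b}) = 2 := by
  have h1 : LinearIndependent F ![a, b] := by
    rw [LinearIndependent.pair_iff' ha]
    intro c hc
    exact hb (Submodule.mem_span_singleton.2 ⟨c, hc⟩)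
  have h2 := finrank_span_eq_card h1
  have h3 : Set.range ![a, b] = {a, b} := by simp [Matrix.range_cons, Set.pair_comm]
  rw [h3] at h2
  simpa using h2

/-- a nonzero functional vanishing on two vectors -/
theorem exists_line (hV : finrank F V = 3) (a b : V) :
    ∃ L : Dual F V, L ≠ 0 ∧ L a = 0 ∧ L b = 0 := by
  have h1 : Submodule.span F {a, b} < ⊤ := by
    rw [lt_top_iff_ne_top]
    intro h
    have := pair_rank_le (F := F) a b
    rw [h, finrank_top, hV] at this
    omega
  obtain ⟨f, hf, hle⟩ := Submodule.exists_le_ker_of_lt_top _ h1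
  refine ⟨f, hf, ?_, ?_⟩
  · exact hle (Submodule.subset_span (by simp))
  · exact hle (Submodule.subset_span (by simp))

theorem ker_eq_span (hV : finrank F V = 3) {L : Dual F V} (hL : L ≠ 0) {a b : V} (ha : a ≠ 0)
    (hb : b ∉ Submodule.span F {a}) (h1 : L a = 0) (h2 : L b = 0) :
    LinearMap.ker L = Submodule.span F {a, b} := by
  symm
  refine Submodule.eq_of_le_of_finrank_le ?_ ?_
  · rw [Submodule.span_le]
    rintro x (rfl | hx)
    · exact h1
    · rw [Set.mem_singleton_iff] at hx; subst hx; exact h2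
  · have := Module.Dual.finrank_ker_add_one_of_ne_zero (K := F) (f := L) hL
    rw [pair_rank ha hb]
    omega

/-- zero sets without three collinear points -/
def Arc (F : Type*) [Field F] {V : Type*} [AddCommGroup V] [Module F V] (g : V → F) : Prop :=
  ∀ u v : V, u ≠ 0 → v ∉ Submodule.span F {u} → g u = 0 → g v = 0 → g (u + v) ≠ 0

/-- a quadratic form with three collinear zeros is a product -/
theorem split (hV : finrank F V = 3) {g : V → F} (hg : IsQ g) {u v : V} (hu : u ≠ 0) (hv : v ∉ Submodule.span F {u})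
    (h1 : g u = 0) (h2 : g v = 0) (h3 : g (u + v) = 0) :
    ∃ M M' : Dual F V, M ≠ 0 ∧ ∀ x, g x = M x * M' x := by
  obtain ⟨B, hB⟩ := hg.polar
  obtain ⟨M, hM, hMu, hMv⟩ := exists_line (F := F) hV u v
  have hk := ker_eq_span hV hM hu hv hMu hMv
  obtain ⟨e, he⟩ : ∃ e, M e = 1 := by
    obtain ⟨x, hx⟩ : ∃ x, M x ≠ 0 := by
      by_contra hcon
      push Not at hcon
      exact hM (LinearMap.ext hcon)
    exact ⟨(M x)⁻¹ • x, by rw [map_smul, smul_eq_mul, inv_mul_cancel₀ hx]⟩
  have hBuv : B u v = 0 := by
    have := hB u v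
    rw [h1, h2, h3] at this
    simpa using this.symm
  have hker : ∀ w, M w = 0 → g w = 0 := by
    intro w hw
    have : w ∈ LinearMap.ker M := hw
    rw [hk] at this
    obtain ⟨s, t, rfl⟩ := Submodule.mem_span_pair.1 this
    rw [hB, hg.smul, hg.smul, h1, h2, map_smul, map_smul, LinearMap.smul_apply, hBuv]
    simp
  refine ⟨M, B.flip e + (g e - B e e) • M, hM, fun x => ?_⟩
  have hx : x = (x - M x • e) + M x • e := by abel
  have hw : M (x - M x • e) = 0 := by rw [map_sub, map_smul, he]; simp
  have h4 : g x = g (x - M x • e) + g (M x • e) + B (x - M x • e) (M x • e) := by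
    rw [← hB, ← hx]
  rw [h4, hker _ hw, hg.smul]
  simp only [map_sub, map_smul, LinearMap.sub_apply, LinearMap.smul_apply, smul_eq_mul, LinearMap.add_apply,
    LinearMap.flip_apply]
  ring

/-- two planes or an arc -/
def Thin (F : Type*) [Field F] {V : Type*} [AddCommGroup V] [Module F V] (g : V → F) : Prop :=
  (∃ L L' : Dual F V, L ≠ 0 ∧ L' ≠ 0 ∧ ∀ x, g x = L x * L' x) ∨ Arc F g

theorem isQ_mul (L L' : Dual F V) : IsQ (F := F) (V := V) fun x => L x * L' x :=
  ⟨1, 0, L, L', L, L', fun v => by simp⟩

theorem cz (L : Dual F V) {T : Finset V} (hT : IsCone F T) : IsCone F (zer T L) :=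
  cone_zer hT fun v c h => by rw [map_smul, h, smul_zero]

theorem co (L : Dual F V) {T : Finset V} (hT : IsCone F T) : IsCone F (off T L) :=
  cone_off hT fun v c hc h => by rw [map_smul]; exact mul_ne_zero hc h

theorem czq {g : V → F} (hg : IsQ g) {T : Finset V} (hT : IsCone F T) : IsCone F (zer T g) :=
  cone_zer hT fun v c h => by rw [hg.smul, h, mul_zero]

theorem coq {g : V → F} (hg : IsQ g) {T : Finset V} (hT : IsCone F T) : IsCone F (off T g) :=
  cone_off hT fun v c hc h => by rw [hg.smul]; exact mul_ne_zero (pow_ne_zero _ hc) h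

theorem indep_symm {u v : V} (hu : u ≠ 0) (h : u ∉ Submodule.span F {v}) : v ∉ Submodule.span F {u} ∨ v = 0 := by
  by_cases hv : v = 0
  · exact Or.inr hv
  · left
    intro hcon
    obtain ⟨c, hc⟩ := Submodule.mem_span_singleton.1 hcon
    apply h
    have hc0 : c ≠ 0 := by
      rintro rfl
      rw [zero_smul] at hc
      exact hv hc.symm
    exact Submodule.mem_span_singleton.2 ⟨c⁻¹, by rw [← hc, smul_smul, inv_mul_cancel₀ hc0, one_smul]⟩

theorem exists_indep {T : Finset V} (hT : IsCone F T) : ∀ n : ℕ, n ≤ pts F T →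
    ∃ x : Fin n → V, (∀ i, x i ∈ T) ∧ ∀ i j, i ≠ j → x i ∉ Submodule.span F {x j} := by
  intro n
  induction n with
  | zero => intro _; exact ⟨fun i => i.elim0, fun i => i.elim0, fun i => i.elim0⟩
  | succ n ih =>
    intro hn
    obtain ⟨x, hx, hxi⟩ := ih (by omega)
    obtain ⟨v, hv, hvx⟩ := exists_new hT (Finset.univ.image x) (by
      have := Finset.card_image_le (s := (Finset.univ : Finset (Fin n))) (f := x)
      rw [Finset.card_univ, Fintype.card_fin] at this
      omega)
    have hv1 : ∀ i, v ∉ Submodule.span F {x i} := fun i => hvx _ (Finset.mem_image_of_mem _ (Finset.mem_univ _))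
    refine ⟨Fin.cons v x, ?_, ?_⟩
    · intro i
      refine Fin.cases ?_ (fun i => ?_) i
      · exact hv
      · exact hx i
    · intro i j
      refine Fin.cases ?_ (fun i => ?_) i
      · refine Fin.cases ?_ (fun j => ?_) j
        · intro h; exact absurd rfl h
        · intro _
          exact hv1 j
      · refine Fin.cases ?_ (fun j => ?_) j
        · intro _
          rcases indep_symm (hT.1 v hv) (hv1 i) with h | h
          · exact h
          · exact absurd h (hT.1 _ (hx i))
        · intro hij
          exact hxi i j fun h => hij (by rw [h])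

/-- five points of an arc lie on a thin quadratic -/
theorem five (hV : finrank F V = 3) {R : Finset V} (hR : IsCone F R) (h6 : 5 ≤ pts F R)
    (harc : ∀ L : Dual F V, L ≠ 0 → pts F (zer R L) ≤ 2) :
    ∃ g : V → F, IsQ g ∧ Thin F g ∧ 5 ≤ pts F (zer R g) := by
  obtain ⟨x, hx, hxi⟩ := exists_indep hR 5 h6
  have hno : ∀ L : Dual F V, L ≠ 0 → ∀ i j k : Fin 5, i ≠ j → i ≠ k → j ≠ k → L (x i) = 0 → L (x j) = 0 → L (x k) ≠ 0 := by
    intro L hL i j k hij hik hjk hi hj hk
    have h1 : 3 ≤ pts F (zer R L) := by
      refine card_le_pts (F := F) (cz L hR) ![x i, x j, x k] ?_ ?_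
      · intro t
        fin_cases t
        · exact mem_zer.2 ⟨hx i, hi⟩
        · exact mem_zer.2 ⟨hx j, hj⟩
        · exact mem_zer.2 ⟨hx k, hk⟩
      · intro s t hst
        fin_cases s <;> fin_cases t
        · exact absurd rfl hst
        · exact hxi i j hij
        · exact hxi i k hik
        · exact hxi j i hij.symm
        · exact absurd rfl hst
        · exact hxi j k hjk
        · exact hxi k i hik.symm
        · exact hxi k j hjk.symm
        · exact absurd rfl hst
    have := harc L hL
    omega
  obtain ⟨L₁, hL₁, h10, h11⟩ := exists_line (F := F) hV (x 0) (x 1)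
  obtain ⟨L₂, hL₂, h22, h23⟩ := exists_line (F := F) hV (x 2) (x 3)
  obtain ⟨L₃, hL₃, h30, h32⟩ := exists_line (F := F) hV (x 0) (x 2)
  obtain ⟨L₄, hL₄, h41, h43⟩ := exists_line (F := F) hV (x 1) (x 3)
  set g : V → F := fun v => (L₃ (x 4) * L₄ (x 4)) * (L₁ v * L₂ v) + (-(L₁ (x 4) * L₂ (x 4))) * (L₃ v * L₄ v) with hg
  have hgQ : IsQ g := ⟨_, _, L₁, L₂, L₃, L₄, fun v => rfl⟩
  have hg0 : ∀ i, g (x i) = 0 := by
    intro i
    fin_cases i
    · change g (x 0) = 0
      simp only [hg, h10, h30]; ring
    · change g (x 1) = 0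
      simp only [hg, h11, h41]; ring
    · change g (x 2) = 0
      simp only [hg, h22, h32]; ring
    · change g (x 3) = 0
      simp only [hg, h23, h43]; ring
    · change g (x 4) = 0
      simp only [hg]; ring
  have hne : g (x 0 + x 1) ≠ 0 := by
    have h1 := hno L₁ hL₁ 0 1 4 (by decide) (by decide) (by decide) h10 h11
    have h2 := hno L₂ hL₂ 2 3 4 (by decide) (by decide) (by decide) h22 h23
    have h3 := hno L₃ hL₃ 0 2 1 (by decide) (by decide) (by decide) h30 h32
    have h4 := hno L₄ hL₄ 1 3 0 (by decide) (by decide) (by decide) h41 h43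
    simp only [hg, map_add, h10, h11, h30, h41, zero_add, add_zero, zero_mul, mul_zero]
    exact mul_ne_zero (neg_ne_zero.2 (mul_ne_zero h1 h2)) (mul_ne_zero h3 h4)
  refine ⟨g, hgQ, ?_, ?_⟩
  · by_cases hA : Arc F g
    · exact Or.inr hA
    · left
      unfold Arc at hA
      push Not at hA
      obtain ⟨u, v, hu, hv, h1, h2, h3⟩ := hA
      obtain ⟨M, M', hM, hMM⟩ := split hV hgQ hu hv h1 h2 h3
      refine ⟨M, M', hM, ?_, hMM⟩
      rintro rfl
      apply hne
      rw [hMM]; simp
  · exact card_le_pts (F := F) (czq hgQ hR) x (fun i => mem_zer.2 ⟨hx i, hg0 i⟩) hxi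

theorem conic (hV : finrank F V = 3) : ∀ (m : ℕ) {R : Finset V} {w : V → F} {k : ℕ}, Good R w k m →
    2 * pts F R ≤ 5 * m + 2 → ∃ g : V → F, IsQ g ∧ Thin F g ∧ ∀ v ∈ R, g v = 0 := by
  intro m
  induction m using Nat.strong_induction_on with
  | _ m ih =>
    intro R w k h hN
    have hcone := good_cone h
    obtain ⟨L₀, hL₀, -, -⟩ := exists_line (F := F) hV 0 0
    -- a collinear set
    have hcol : ∀ (T : Finset V), (∃ a b : V, ∀ v ∈ T, v ∈ Submodule.span F {a, b}) →
        ∃ L : Dual F V, L ≠ 0 ∧ ∀ v ∈ T, L v = 0 := by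
      rintro T ⟨a, b, hab⟩
      obtain ⟨L, hL, h1, h2⟩ := exists_line (F := F) hV a b
      refine ⟨L, hL, fun v hv => ?_⟩
      obtain ⟨x, y, rfl⟩ := Submodule.mem_span_pair.1 (hab v hv)
      simp [h1, h2]
    have hprod : ∀ L L' : Dual F V, L ≠ 0 → L' ≠ 0 → (∀ v ∈ R, L v = 0 ∨ L' v = 0) →
        ∃ g : V → F, IsQ g ∧ Thin F g ∧ ∀ v ∈ R, g v = 0 := by
      intro L L' hL hL' hh
      refine ⟨fun x => L x * L' x, isQ_mul L L', Or.inl ⟨L, L', hL, hL', fun _ => rfl⟩, fun v hv => ?_⟩
      rcases hh v hv with h1 | h1 <;> simp [h1]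
    by_cases hne : R.Nonempty
    swap
    · rw [Finset.not_nonempty_iff_eq_empty] at hne
      exact hprod L₀ L₀ hL₀ hL₀ (by simp [hne])
    by_cases hm : m ≤ 1
    · obtain ⟨L, hL, hLR⟩ := hcol R ((cb_pts h hne).2 (by omega))
      exact hprod L L hL hL fun v hv => Or.inl (hLR v hv)
    obtain ⟨n, rfl⟩ : ∃ n, m = n + 2 := ⟨m - 2, by omega⟩
    have hNn := (cb_pts h hne).1
    -- case 1
    by_cases hc1 : ∃ L : Dual F V, L ≠ 0 ∧ pts F (off R L) ≤ 2 * (n + 1) + 1
    · obtain ⟨L, hL, hLR⟩ := hc1
      by_cases he : (off R L).Nonempty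
      · obtain ⟨L', hL', hLR'⟩ := hcol _ ((cb_pts (good_off h L) he).2 hLR)
        refine hprod L L' hL hL' fun v hv => ?_
        by_cases hv0 : L v = 0
        · exact Or.inl hv0
        · exact Or.inr (hLR' v (mem_off.2 ⟨hv, hv0⟩))
      · exact hprod L L hL hL fun v hv => Or.inl (off_empty he v hv)
    push Not at hc1
    have hline : ∀ L : Dual F V, L ≠ 0 → 2 * pts F (zer R L) ≤ n + 4 := by
      intro L hL
      have h1 := hc1 L hL
      have h2 := zer_off hcone (cz L hcone) (co L hcone)
      omega
    -- a thin quadratic through five points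
    obtain ⟨g, hgQ, hgT, hg5⟩ : ∃ g : V → F, IsQ g ∧ Thin F g ∧ 5 ≤ pts F (zer R g) := by
      by_cases h3 : ∃ L : Dual F V, L ≠ 0 ∧ 3 ≤ pts F (zer R L)
      · obtain ⟨L, hL, hL3⟩ := h3
        have hcf := co L hcone
        have h1 := hc1 L hL
        obtain ⟨u, hu, -⟩ := exists_new hcf ∅ (by rw [Finset.card_empty]; omega)
        obtain ⟨v, hv, hvu⟩ := exists_new hcf {u} (by rw [Finset.card_singleton]; omega)
        have hvu' := hvu u (by simp)
        obtain ⟨L', hL', hu', hv'⟩ := exists_line (F := F) hV u v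
        refine ⟨fun x => L x * L' x, isQ_mul L L', Or.inl ⟨L, L', hL, hL', fun _ => rfl⟩, ?_⟩
        have h4 := pts_union (F := F) (cz L hcone) (cz L' hcf) (czq (isQ_mul L L') hcone) (by
          rw [Finset.disjoint_left]
          intro x hx hx2
          exact (mem_off.1 (mem_zer.1 hx2).1).2 (mem_zer.1 hx).2)
          (fun x hx => by
            rw [mem_zer] at hx ⊢
            exact ⟨hx.1, by simp only [hx.2, zero_mul]⟩)
          (fun x hx => by
            rw [mem_zer, mem_off] at hx
            rw [mem_zer]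
            exact ⟨hx.1.1, by simp only [hx.2, mul_zero]⟩)
        have h5 : 2 ≤ pts F (zer (off R L) L') := by
          refine card_le_pts (F := F) (cz L' hcf) ![u, v] ?_ ?_
          · intro i
            fin_cases i
            · exact mem_zer.2 ⟨hu, hu'⟩
            · exact mem_zer.2 ⟨hv, hv'⟩
          · intro i j hij
            fin_cases i <;> fin_cases j
            · exact absurd rfl hij
            · change u ∉ Submodule.span F {v}
              intro hcon
              obtain ⟨c, hc⟩ := Submodule.mem_span_singleton.1 hcon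
              apply hvu'
              rw [Submodule.mem_span_singleton]
              have hc0 : c ≠ 0 := by
                rintro rfl
                rw [zero_smul] at hc
                exact hcf.1 u hu hc.symm
              exact ⟨c⁻¹, by rw [← hc, smul_smul, inv_mul_cancel₀ hc0, one_smul]⟩
            · exact hvu'
            · exact absurd rfl hij
        omega
      · push Not at h3
        obtain ⟨u, hu, -⟩ := exists_new hcone ∅ (by rw [Finset.card_empty]; omega)
        obtain ⟨v, hv, hvu⟩ := exists_new hcone {u} (by rw [Finset.card_singleton]; omega)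
        obtain ⟨L, hL, huL, hvL⟩ := exists_line (F := F) hV u v
        have h1 := hc1 L hL
        have h2 := zer_off hcone (cz L hcone) (co L hcone)
        have h4 := pts_pos (F := F) (cz L hcone) ⟨u, mem_zer.2 ⟨hu, huL⟩⟩
        exact five hV hcone (by omega) fun L hL => by have := h3 L hL; omega
    -- big leftovers
    have hbig : ∀ g : V → F, IsQ g → (off R g).Nonempty → 2 * n + 2 ≤ pts F (off R g) := by
      intro g hg hne'
      by_contra hcon
      have hgood := good_filterQ h hg
      obtain ⟨h1, h2⟩ := cb_pts hgood hne'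
      obtain ⟨L, hL, hLR⟩ := hcol _ (h2 (by omega))
      have h3 := hline L hL
      have h4 : pts F (off R g) ≤ pts F (zer R L) := by
        refine pts_mono fun v hv => ?_
        exact mem_zer.2 ⟨(mem_off.1 hv).1, hLR v hv⟩
      omega
    have hle := zer_off hcone (czq hgQ hcone) (coq hgQ hcone)
    by_cases he : (off R g).Nonempty
    swap
    · exact ⟨g, hgQ, hgT, off_empty he⟩
    obtain ⟨g', hgQ', hgT', hg'⟩ := ih n (by omega) (good_filterQ h hgQ) (by omega)
    by_cases he' : (off R g').Nonempty
    swap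
    · exact ⟨g', hgQ', hgT', off_empty he'⟩
    exfalso
    have h1 := hbig g hgQ he
    have h2 := hbig g' hgQ' he'
    have h3 := pts_union (F := F) (coq hgQ hcone) (coq hgQ' hcone) hcone (by
      rw [Finset.disjoint_left]
      intro x hx hx2
      exact (mem_off.1 hx2).2 (hg' x hx)) (Finset.filter_subset _ _) (Finset.filter_subset _ _)
    omega

end H84.PS
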