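import Pool.Agent.H84.PS.GoodAt
import Pool.Agent.H84.PS.Conic
import Pool.Agent.H33.PS.Uni
import Pool.Agent.H25.PS.Conic
import Pool.Agent.H27.PS.CenterE
import Pool.Agent.H16.PS.Glue

/-!
MP_325208 (helper84): in a rich plane without long lines the points with few tangent holes lie in a small exceptional set.
-/

set_option autoImplicit false
set_option linter.unusedSectionVars false

open Module Finset
open scoped Classical LinearAlgebra.Projectivization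

namespace H84.PS

open H8.PS

variable {F : Type*} [Field F] [Fintype F]

theorem exists_pt {v : Fin 3 → F} (hv : v ≠ 0) : ∃ p : ℙ F (Fin 3 → F), ∃ c : F, c ≠ 0 ∧ p.rep = c • v := by
  obtain ⟨a, ha⟩ := Projectivization.exists_smul_eq_mk_rep F v hv
  exact ⟨Projectivization.mk F v hv, a, a.ne_zero, ha.symm⟩

theorem rep_span {p p' : ℙ F (Fin 3 → F)} (h : p.rep ∈ Submodule.span F {p'.rep}) : p = p' := by
  obtain ⟨c, hc⟩ := Submodule.mem_span_singleton.1 h
  exact mk_eq_of_smul hc.symm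

theorem card_points {T : Finset (Fin 3 → F)} (hT : IsCone F T) :
    pts F T = (Finset.univ.filter fun p : ℙ F (Fin 3 → F) => p.rep ∈ T).card := by
  have h1 : T = ((Finset.univ.filter fun p : ℙ F (Fin 3 → F) => p.rep ∈ T) ×ˢ
      (Finset.univ.filter fun c : F => c ≠ 0)).image fun x => x.2 • x.1.rep := by
    ext v
    rw [Finset.mem_image]
    constructor
    · intro hv
      obtain ⟨p, c, hc0, hp⟩ := exists_pt (hT.1 v hv)
      refine ⟨(p, c⁻¹), ?_, ?_⟩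
      · simp only [Finset.mem_product, Finset.mem_filter, Finset.mem_univ, true_and]
        exact ⟨by rw [hp]; exact hT.2 v hv c hc0, inv_ne_zero hc0⟩
      · simp only [hp, smul_smul, inv_mul_cancel₀ hc0, one_smul]
    · rintro ⟨⟨p, c⟩, hx, rfl⟩
      simp only [Finset.mem_product, Finset.mem_filter, Finset.mem_univ, true_and] at hx
      exact hT.2 _ hx.1 c hx.2
  have h2 : (((Finset.univ.filter fun p : ℙ F (Fin 3 → F) => p.rep ∈ T) ×ˢ
      (Finset.univ.filter fun c : F => c ≠ 0)).image fun x => x.2 • x.1.rep).card =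
      (Finset.univ.filter fun p : ℙ F (Fin 3 → F) => p.rep ∈ T).card * (Fintype.card F - 1) := by
    rw [Finset.card_image_of_injOn, Finset.card_product, card_ne_zero_filter]
    rintro ⟨p, c⟩ hx ⟨p', c'⟩ hx' heq
    simp only [Finset.coe_product, Set.mem_prod, Finset.mem_coe, Finset.mem_filter, Finset.mem_univ, true_and] at hx hx' heq
    have h3 : p = p' := by
      apply rep_span
      rw [Submodule.mem_span_singleton]
      exact ⟨c⁻¹ * c', by rw [mul_smul, ← heq, smul_smul, inv_mul_cancel₀ hx.2, one_smul]⟩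
    subst h3
    have h4 := smul_left_injective F p.rep_nonzero heq
    rw [h4]
  rw [← h1, card_eq hT] at h2
  exact Nat.eq_of_mul_eq_mul_right (lt_of_lt_of_le one_pos q1) h2

theorem line_of_dual {L : Dual F (Fin 3 → F)} (hL : L ≠ 0) :
    ∃ l : ℙ F (Fin 3 → F), ∀ X : ℙ F (Fin 3 → F), L X.rep = 0 → X ∈ l := by
  have h1 := Module.Dual.finrank_ker_add_one_of_ne_zero (K := F) (f := L) hL
  simp only [Module.finrank_fin_fun] at h1
  obtain ⟨l, hl⟩ := exists_Kl (U := LinearMap.ker L) (by omega)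
  exact ⟨l, fun X hX => mem_line.2 (hl hX)⟩

/-- a two-term quadratic function as a quadratic form -/
theorem to_quad {V : Type*} [AddCommGroup V] [Module F V] {g : V → F} (hg : IsQ g) (hA : Arc F g) :
    ∃ Q : QuadraticForm F V, (∀ v, Q v = g v) ∧ Pool.Agent.H33.PS.Arc Q ⊤ := by
  obtain ⟨a, b, L₁, L₂, L₃, L₄, h⟩ := id hg
  refine ⟨a • QuadraticMap.linMulLin L₁ L₂ + b • QuadraticMap.linMulLin L₃ L₄, ?_, ?_⟩
  · intro v
    rw [h]
    simp [QuadraticMap.linMulLin_apply]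
  · have hv : ∀ v, (a • QuadraticMap.linMulLin L₁ L₂ + b • QuadraticMap.linMulLin L₃ L₄ : QuadraticForm F V) v = g v := by
      intro v
      rw [h]
      simp [QuadraticMap.linMulLin_apply]
    intro x y z _ _ _ hx hy hz h1 h2 h3 hspan
    rw [hv] at h1 h2 h3
    by_cases hxy : y ∈ Submodule.span F {x}
    · exact Or.inr (Or.inr hxy)
    obtain ⟨s, t, rfl⟩ := Submodule.mem_span_pair.1 hspan
    obtain ⟨B, hB⟩ := hg.polar
    have h4 := hA x y hx hxy h1 h2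
    rw [hB, h1, h2, zero_add, zero_add] at h4
    rw [hB, hg.smul, hg.smul, h1, h2, map_smul, map_smul, LinearMap.smul_apply] at h3
    simp only [mul_zero, zero_add, smul_eq_mul] at h3
    have h5 : s = 0 ∨ t = 0 := by
      rcases mul_eq_zero.1 h3 with h5 | h5
      · exact Or.inr h5
      · rcases mul_eq_zero.1 h5 with h6 | h6
        · exact Or.inl h6
        · exact absurd h6 h4
    rcases h5 with rfl | rfl
    · right; left
      rw [zero_smul, zero_add]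
      exact Submodule.smul_mem _ _ (Submodule.mem_span_singleton_self _)
    · left
      rw [zero_smul, add_zero]
      exact Submodule.smul_mem _ _ (Submodule.mem_span_singleton_self _)

/-- the exceptional set of a quadratic form -/
noncomputable def ex (Q : QuadraticForm F (Fin 3 → F)) : Finset (ℙ F (Fin 3 → F)) :=
  Finset.univ.filter fun X => Q X.rep = 0 ∨ ∀ x, QuadraticMap.polar Q X.rep x = 0

theorem mem_ex {Q : QuadraticForm F (Fin 3 → F)} {X : ℙ F (Fin 3 → F)} :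
    X ∈ ex Q ↔ Q X.rep = 0 ∨ ∀ x, QuadraticMap.polar Q X.rep x = 0 := by simp [ex]

/-- (5), from helper25 -/
theorem few_tangents {g : (Fin 3 → F) → F} (hgQ : IsQ g) (hA : Arc F g) {R : Finset (Fin 3 → F)}
    (hR : IsCone F R) {Z : Fin 3 → F} (hZ0 : Z ≠ 0) (hZ : g Z ≠ 0)
    (ht : ∀ v ∈ R, ∀ v' ∈ R, v' ∈ Submodule.span F {Z, v} → v' ∈ Submodule.span F {v}) (h0 : ∀ v ∈ R, g v = 0)
    (hp : ∃ x, g (Z + x) - g Z - g x ≠ 0) : 2 * pts F R ≤ Fintype.card F + 4 := by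
  obtain ⟨β, hβ⟩ := hgQ.polar
  have h1 := Pool.Agent.H25.PS.card_tangent_le (F := F) (V := Fin 3 → F) (g := g) (β := β) (by simp) hgQ.smul hβ hA
    (B := R) (R := R) (le_refl _) hR.1 (Z := Z) ht (fun v hv hs => hZ (by
      obtain ⟨c, rfl⟩ := Submodule.mem_span_singleton.1 hs
      rw [hgQ.smul, h0 v hv, mul_zero])) h0 hZ (by
      rintro hβ0
      obtain ⟨x, hx⟩ := hp
      apply hx
      rw [hβ, hβ0]; simp)
  rw [card_eq hR] at h1
  have h2 := q1 (F := F)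
  have h3 : (2 * pts F R) * (Fintype.card F - 1) ≤ (Fintype.card F + 4) * (Fintype.card F - 1) := by
    calc (2 * pts F R) * (Fintype.card F - 1) = 2 * (pts F R * (Fintype.card F - 1)) := by ring
      _ ≤ (Fintype.card F - 1) * (Fintype.card F + 4) := h1
      _ = _ := by ring
  exact Nat.le_of_mul_le_mul_right h3 (by omega)

/-- (6), from helper25 and helper33 -/
theorem card_ex (Q : QuadraticForm F (Fin 3 → F)) (hQ : Pool.Agent.H33.PS.Arc Q ⊤) : (ex Q).card ≤ Fintype.card F + 3 := by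
  have hs : ∀ (c : F) (v : Fin 3 → F), Q (c • v) = c ^ 2 * Q v := by
    intro c v
    rw [QuadraticMap.map_smul, smul_eq_mul]; ring
  have hA : ∀ u v : Fin 3 → F, u ≠ 0 → v ∉ Submodule.span F {u} → Q u = 0 → Q v = 0 → Q (u + v) ≠ 0 := by
    intro u v hu hv h1 h2 h3
    have hv0 : v ≠ 0 := by
      rintro rfl
      exact hv (Submodule.zero_mem _)
    have huv : u + v ≠ 0 := by
      intro h
      apply hv
      rw [Submodule.mem_span_singleton]
      exact ⟨-1, by rw [neg_smul, one_smul]; exact (eq_neg_of_add_eq_zero_right h).symm⟩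
    rcases hQ u v (u + v) trivial trivial trivial hu hv0 huv h1 h2 h3
      (Submodule.add_mem _ (Submodule.subset_span (by simp)) (Submodule.subset_span (by simp))) with h | h | h
    · apply hv
      have := Submodule.sub_mem _ h (Submodule.mem_span_singleton_self u)
      simpa using this
    · have h4 : u ∈ Submodule.span F {v} := by
        have := Submodule.sub_mem _ h (Submodule.mem_span_singleton_self v)
        simpa using this
      obtain ⟨c, hc⟩ := Submodule.mem_span_singleton.1 h4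
      apply hv
      rw [Submodule.mem_span_singleton]
      have hc0 : c ≠ 0 := by
        rintro rfl
        rw [zero_smul] at hc
        exact hu hc.symm
      exact ⟨c⁻¹, by rw [← hc, smul_smul, inv_mul_cancel₀ hc0, one_smul]⟩
    · exact hv h
  set T : Finset (Fin 3 → F) := Finset.univ.filter fun v => v ≠ 0 ∧ Q v = 0 with hT
  have hTc : IsCone F T := by
    refine ⟨fun v hv => (Finset.mem_filter.1 hv).2.1, fun v hv c hc => ?_⟩
    rw [hT, Finset.mem_filter] at hv ⊢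
    refine ⟨Finset.mem_univ _, smul_ne_zero hc hv.2.1, ?_⟩
    rw [hs, hv.2.2, mul_zero]
  have h1 := Pool.Agent.H25.PS.card_le_of_arc (F := F) (V := Fin 3 → F) (g := Q) (by simp) hs hA (T := T)
    (fun v hv => (Finset.mem_filter.1 hv).2)
  have h2 : pts F T ≤ Fintype.card F + 2 := pts_le_of_card hTc (by rw [mul_comm]; exact h1)
  rw [card_points hTc] at h2
  have h3 : (Finset.univ.filter fun X : ℙ F (Fin 3 → F) => Q X.rep ≠ 0 ∧ ∀ x, QuadraticMap.polar Q X.rep x = 0).card ≤ 1 := by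
    rw [Finset.card_le_one]
    intro X hX Y hY
    rw [Finset.mem_filter] at hX hY
    exact rep_span (Pool.Agent.H33.PS.nucleus (K := (⊤ : Submodule F (Fin 3 → F))) (by simp) Q hQ trivial trivial
      hY.2.1 hX.2.1 (fun x _ => hY.2.2 x) (fun x _ => hX.2.2 x))
  have hsub : ex Q ⊆ (Finset.univ.filter fun p : ℙ F (Fin 3 → F) => p.rep ∈ T) ∪
      (Finset.univ.filter fun X : ℙ F (Fin 3 → F) => Q X.rep ≠ 0 ∧ ∀ x, QuadraticMap.polar Q X.rep x = 0) := by
    intro X hX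
    rw [mem_ex] at hX
    rw [Finset.mem_union, Finset.mem_filter, Finset.mem_filter, Finset.mem_filter]
    by_cases h0 : Q X.rep = 0
    · exact Or.inl ⟨Finset.mem_univ _, Finset.mem_univ _, X.rep_nonzero, h0⟩
    · exact Or.inr ⟨Finset.mem_univ _, h0, hX.resolve_left h0⟩
  have h4 := (Finset.card_le_card hsub).trans (Finset.card_union_le _ _)
  omega

variable {B : Finset (ℙ F (Fin 3 → F))} {d : ℕ}

/-- the conic of a point with few tangents -/
theorem stepA (hPD : PlaneData (ℙ F (Fin 3 → F)) (ℙ F (Fin 3 → F)) (Fintype.card F) d B)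
    (hG : ∀ Z ∉ B, ∃ (R : Finset (Fin 3 → F)) (w : (Fin 3 → F) → F) (k m : ℕ), Good R w k m ∧
      Fintype.card F ≤ m + d ∧ ∀ X : ℙ F (Fin 3 → F), X.rep ∈ R ↔ X ∈ T (ℙ F (Fin 3 → F)) B Z)
    (h3 : 3 * d + 1 ≤ 2 * Fintype.card F) (hlong : ∀ l : ℙ F (Fin 3 → F), (on B l).card ≤ Fintype.card F - d)
    {Z : ℙ F (Fin 3 → F)} (hZ : Z ∉ B) (hT : 2 * (T (ℙ F (Fin 3 → F)) B Z).card ≤ 5 * (Fintype.card F - d)) :
    2 * (Fintype.card F - d) + 2 ≤ (T (ℙ F (Fin 3 → F)) B Z).card ∧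
    ∃ Q : QuadraticForm F (Fin 3 → F), Pool.Agent.H33.PS.Arc Q ⊤ ∧ (∀ X ∈ T (ℙ F (Fin 3 → F)) B Z, Q X.rep = 0) ∧ Z ∈ ex Q := by
  have hnc : ¬ ∃ l : ℙ F (Fin 3 → F), ∀ X ∈ T (ℙ F (Fin 3 → F)) B Z, X ∈ l := by
    rintro ⟨l, hl⟩
    have h1 : (T (ℙ F (Fin 3 → F)) B Z).card ≤ (on B l).card := by
      refine Finset.card_le_card fun X hX => ?_
      rw [on, Finset.mem_filter]
      exact ⟨(mem_T.1 hX).1, hl X hX⟩
    have h2 := hPD.cb0' Z hZ
    have h4 := hlong l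
    omega
  have hbig : 2 * (Fintype.card F - d) + 2 ≤ (T (ℙ F (Fin 3 → F)) B Z).card := by
    by_contra hcon
    exact hnc (hPD.cb0 Z hZ (by omega))
  refine ⟨hbig, ?_⟩
  obtain ⟨R, w, k, m, hg, hm, hRT⟩ := hG Z hZ
  have hcone := good_cone hg
  have hpts : pts F R = (T (ℙ F (Fin 3 → F)) B Z).card := by
    rw [card_points hcone]
    congr 1
    ext X
    rw [Finset.mem_filter, hRT]
    simp
  obtain ⟨g, hgQ, hgT, hg0⟩ := conic (F := F) (V := Fin 3 → F) (by simp) m hg (by omega)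
  have hA : Arc F g := by
    rcases hgT with ⟨L, L', hL, hL', hLL⟩ | hA
    · exfalso
      obtain ⟨l, hl⟩ := line_of_dual hL
      obtain ⟨l', hl'⟩ := line_of_dual hL'
      have hcov : ∀ X ∈ T (ℙ F (Fin 3 → F)) B Z, X ∈ l ∨ X ∈ l' := by
        intro X hX
        have h1 := hg0 _ ((hRT X).2 hX)
        rw [hLL] at h1
        rcases mul_eq_zero.1 h1 with h2 | h2
        · exact Or.inl (hl X h2)
        · exact Or.inr (hl' X h2)
      by_cases hne : ((T (ℙ F (Fin 3 → F)) B Z).filter fun X => X ∉ l).Nonempty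
      · have h1 := hPD.cb1 Z hZ l hne
        have h2 : ((T (ℙ F (Fin 3 → F)) B Z).filter fun X => X ∉ l).card ≤ (on B l').card := by
          refine Finset.card_le_card fun X hX => ?_
          rw [Finset.mem_filter] at hX
          rw [on, Finset.mem_filter]
          exact ⟨(mem_T.1 hX.1).1, (hcov X hX.1).resolve_left hX.2⟩
        have h4 := hlong l'
        omega
      · apply hnc
        refine ⟨l, fun X hX => ?_⟩
        by_contra hcon
        exact hne ⟨X, Finset.mem_filter.2 ⟨hX, hcon⟩⟩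
    · exact hA
  obtain ⟨Q, hQg, hQA⟩ := to_quad hgQ hA
  refine ⟨Q, hQA, fun X hX => by rw [hQg]; exact hg0 _ ((hRT X).2 hX), ?_⟩
  rw [mem_ex]
  by_contra hcon
  push Not at hcon
  have h5 := few_tangents hgQ hA hcone Z.rep_nonzero (by rw [← hQg]; exact hcon.1) ?_ hg0 (by
    obtain ⟨x, hx⟩ := hcon.2
    refine ⟨x, ?_⟩
    rw [← hQg, ← hQg, ← hQg]
    exact hx)
  · omega
  · intro v hv v' hv' hspan
    obtain ⟨X, c, hc, hX⟩ := exists_pt (hcone.1 v hv)
    obtain ⟨X', c', hc', hX'⟩ := exists_pt (hcone.1 v' hv')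
    have hXT : X ∈ T (ℙ F (Fin 3 → F)) B Z := (hRT X).1 (by rw [hX]; exact hcone.2 v hv c hc)
    have hXT' : X' ∈ T (ℙ F (Fin 3 → F)) B Z := (hRT X').1 (by rw [hX']; exact hcone.2 v' hv' c' hc')
    have hXB : X ∈ B := (mem_T.1 hXT).1
    have hXB' : X' ∈ B := (mem_T.1 hXT').1
    have hne : X ≠ Z := by rintro rfl; exact hZ hXB
    let l : ℙ F (Fin 3 → F) := Configuration.HasLines.mkLine hne
    have hl := Configuration.HasLines.mkLine_ax (P := ℙ F (Fin 3 → F)) (L := ℙ F (Fin 3 → F)) hne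
    have hX'l : X' ∈ l := by
      rw [line_span hne hl.2 hl.1, hX']
      refine Submodule.smul_mem _ _ ?_
      obtain ⟨s, t, rfl⟩ := Submodule.mem_span_pair.1 hspan
      rw [Submodule.mem_span_pair]
      exact ⟨s, t * c⁻¹, by rw [hX, smul_smul, mul_assoc, inv_mul_cancel₀ hc, mul_one]⟩
    have heq : X' = X := (mem_T.1 hXT).2 l hl.2 hl.1 X' hXB' hX'l
    rw [heq] at hX'
    rw [Submodule.mem_span_singleton]
    exact ⟨c'⁻¹ * c, by rw [mul_smul, ← hX, hX', smul_smul, inv_mul_cancel₀ hc', one_smul]⟩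

theorem inter_le {Q₁ Q₂ : QuadraticForm F (Fin 3 → F)} (h1 : Pool.Agent.H33.PS.Arc Q₁ ⊤) (h2 : Pool.Agent.H33.PS.Arc Q₂ ⊤)
    {T₁ T₂ : Finset (ℙ F (Fin 3 → F))} (hT₁ : ∀ X ∈ T₁, Q₁ X.rep = 0) (hT₂ : ∀ X ∈ T₂, Q₂ X.rep = 0)
    {Z : ℙ F (Fin 3 → F)} (hZ : Z ∉ ex Q₁) (hZ2 : Z ∈ ex Q₂) : (T₁ ∩ T₂).card ≤ 4 := by
  by_contra hcon
  obtain ⟨T', hT', hc'⟩ := Finset.exists_subset_card_eq (show 5 ≤ (T₁ ∩ T₂).card by omega)
  let e := T'.equivFinOfCardEq hc'
  have hmem : ∀ i, (e.symm i : ℙ F (Fin 3 → F)) ∈ T₁ ∧ (e.symm i : ℙ F (Fin 3 → F)) ∈ T₂ := fun i =>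
    Finset.mem_inter.1 (hT' (e.symm i).2)
  obtain ⟨c₁, c₂, hc₁, hc₂, hcc⟩ := Pool.Agent.H33.PS.unique (K := (⊤ : Submodule F (Fin 3 → F))) (by simp) Q₁ Q₂ h1 h2
    (fun i => (e.symm i : ℙ F (Fin 3 → F)).rep) (fun _ => trivial) (fun i => (e.symm i : ℙ F (Fin 3 → F)).rep_nonzero)
    (fun i j hij hs => hij (by
      have := rep_span hs
      exact (e.symm.injective (Subtype.ext this)).symm))
    (fun i => hT₁ _ (hmem i).1) (fun i => hT₂ _ (hmem i).2)
  apply hZ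
  rw [mem_ex] at hZ2 ⊢
  have hcc' : ∀ v, c₁ * Q₁ v = c₂ * Q₂ v := fun v => hcc v trivial
  rcases hZ2 with h | h
  · left
    have := hcc' Z.rep
    rw [h, mul_zero] at this
    exact (mul_eq_zero.1 this).resolve_left hc₁
  · right
    intro x
    have h5 : c₁ * QuadraticMap.polar Q₁ Z.rep x = c₂ * QuadraticMap.polar Q₂ Z.rep x := by
      unfold QuadraticMap.polar
      have e1 := hcc' (Z.rep + x)
      have e2 := hcc' Z.rep
      have e3 := hcc' x
      linear_combination e1 - e2 - e3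
    rw [h x, mul_zero] at h5
    exact (mul_eq_zero.1 h5).resolve_left hc₁

/-- **The exceptional set.** -/
theorem exceptional (hPD : PlaneData (ℙ F (Fin 3 → F)) (ℙ F (Fin 3 → F)) (Fintype.card F) d B)
    (hG : ∀ Z ∉ B, ∃ (R : Finset (Fin 3 → F)) (w : (Fin 3 → F) → F) (k m : ℕ), Good R w k m ∧
      Fintype.card F ≤ m + d ∧ ∀ X : ℙ F (Fin 3 → F), X.rep ∈ R ↔ X ∈ T (ℙ F (Fin 3 → F)) B Z)
    (hq : 12 ≤ Fintype.card F) (h3 : 3 * d + 1 ≤ 2 * Fintype.card F)
    (hlong : ∀ l : ℙ F (Fin 3 → F), (on B l).card ≤ Fintype.card F - d) :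
    ∃ E : Finset (ℙ F (Fin 3 → F)), E.card ≤ 2 * Fintype.card F + 6 ∧
      ∀ Z ∉ B, 2 * (T (ℙ F (Fin 3 → F)) B Z).card ≤ 5 * (Fintype.card F - d) → Z ∈ E := by
  by_cases hall1 : ∀ Z ∉ B, ¬ 2 * (T (ℙ F (Fin 3 → F)) B Z).card ≤ 5 * (Fintype.card F - d)
  · exact ⟨∅, by simp, fun Z hZ h => absurd h (hall1 Z hZ)⟩
  push Not at hall1
  obtain ⟨Z₁, hZ₁, hT₁⟩ := hall1
  obtain ⟨hb₁, Q₁, hA₁, h0₁, he₁⟩ := stepA hPD hG h3 hlong hZ₁ hT₁
  have hc₁ := card_ex Q₁ hA₁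
  by_cases hall2 : ∀ Z ∉ B, 2 * (T (ℙ F (Fin 3 → F)) B Z).card ≤ 5 * (Fintype.card F - d) → Z ∈ ex Q₁
  · exact ⟨ex Q₁, by omega, hall2⟩
  push Not at hall2
  obtain ⟨Z₂, hZ₂, hT₂, hn₂⟩ := hall2
  obtain ⟨hb₂, Q₂, hA₂, h0₂, he₂⟩ := stepA hPD hG h3 hlong hZ₂ hT₂
  have hc₂ := card_ex Q₂ hA₂
  by_cases hall3 : ∀ Z ∉ B, 2 * (T (ℙ F (Fin 3 → F)) B Z).card ≤ 5 * (Fintype.card F - d) → Z ∈ ex Q₁ ∪ ex Q₂
  · refine ⟨ex Q₁ ∪ ex Q₂, (Finset.card_union_le _ _).trans (by omega), hall3⟩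
  push Not at hall3
  obtain ⟨Z₃, hZ₃, hT₃, hn₃⟩ := hall3
  obtain ⟨hb₃, Q₃, hA₃, h0₃, he₃⟩ := stepA hPD hG h3 hlong hZ₃ hT₃
  exfalso
  rw [Finset.mem_union, not_or] at hn₃
  have i12 := inter_le hA₁ hA₂ h0₁ h0₂ hn₂ he₂
  have i13 := inter_le hA₁ hA₃ h0₁ h0₃ hn₃.1 he₃
  have i23 := inter_le hA₂ hA₃ h0₂ h0₃ hn₃.2 he₃
  have hsub : (T (ℙ F (Fin 3 → F)) B Z₁ ∪ T (ℙ F (Fin 3 → F)) B Z₂) ∪ T (ℙ F (Fin 3 → F)) B Z₃ ⊆ B := by
    intro X hX
    rw [Finset.mem_union, Finset.mem_union] at hX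
    rcases hX with (hX | hX) | hX <;> exact (mem_T.1 hX).1
  have hcB := Finset.card_le_card hsub
  rw [hPD.card] at hcB
  have e1 := Finset.card_union_add_card_inter (T (ℙ F (Fin 3 → F)) B Z₁) (T (ℙ F (Fin 3 → F)) B Z₂)
  have e2 := Finset.card_union_add_card_inter (T (ℙ F (Fin 3 → F)) B Z₁ ∪ T (ℙ F (Fin 3 → F)) B Z₂)
    (T (ℙ F (Fin 3 → F)) B Z₃)
  have e3 : ((T (ℙ F (Fin 3 → F)) B Z₁ ∪ T (ℙ F (Fin 3 → F)) B Z₂) ∩ T (ℙ F (Fin 3 → F)) B Z₃).card ≤ 8 := by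
    rw [Finset.union_inter_distrib_right]
    exact (Finset.card_union_le _ _).trans (by omega)
  omega

/-- **No plane.** -/
theorem no_plane (hPD : PlaneData (ℙ F (Fin 3 → F)) (ℙ F (Fin 3 → F)) (Fintype.card F) d B)
    (hG : ∀ Z ∉ B, ∃ (R : Finset (Fin 3 → F)) (w : (Fin 3 → F) → F) (k m : ℕ), Good R w k m ∧
      Fintype.card F ≤ m + d ∧ ∀ X : ℙ F (Fin 3 → F), X.rep ∈ R ↔ X ∈ T (ℙ F (Fin 3 → F)) B Z)
    (hq : 20 < Fintype.card F) (hd : 1 ≤ d) (h3 : 3 * d + 1 ≤ 2 * Fintype.card F) : False := by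
  obtain ⟨E, hE, hEZ⟩ := exceptional hPD hG (by omega) h3 (fun l => H16.PS.no_long hPD h3 hq l)
  obtain ⟨Z, hZB, hZE, hZT⟩ := Pool.Agent.H27.PS.exists_center_E_pd hPD E hE (by omega) hd h3
  exact hZE (hEZ Z hZB hZT)

/-- **Main theorem.** A maximal partial spread which is not a spread has deficiency at least `2 q / 3` if `q > 20`. -/
theorem main {V : Type*} [AddCommGroup V] [Module F V] [Fintype V] [FiniteDimensional F V] (hV : finrank F V = 4)
    {S : Finset (Submodule F V)} (h2 : ∀ W ∈ S, finrank F W = 2)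
    (hd : ∀ W ∈ S, ∀ W' ∈ S, W ≠ W' → W ⊓ W' = ⊥)
    (hmax : ∀ U : Submodule F V, finrank F U = 2 → U ∉ S → ∃ W ∈ S, U ⊓ W ≠ ⊥)
    (hh : ∃ v : V, v ≠ 0 ∧ ∀ W ∈ S, v ∉ W) (hq : 20 < Fintype.card F) :
    3 * S.card + 2 * Fintype.card F ≤ 3 * (Fintype.card F ^ 2 + 1) := by
  by_contra hcon
  have hle := card_le_spread hV h2 hd
  have hhalf := H8.PS.main hV h2 hd hmax hh
  obtain ⟨d, hdS⟩ : ∃ d, d + S.card = Fintype.card F ^ 2 + 1 := ⟨Fintype.card F ^ 2 + 1 - S.card, by omega⟩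
  have h3 : 3 * d + 1 ≤ 2 * Fintype.card F := by omega
  have hd1 : 1 ≤ d := by omega
  have hdq : d < Fintype.card F := by omega
  obtain ⟨v₁, hv₁0, hv₁⟩ := hh
  have h₁ : v₁ ∈ holes S fun W => W := mem_holes.2 ⟨hv₁0, hv₁⟩
  obtain ⟨u, hu⟩ : ∃ u : V, u ∉ Submodule.span F {v₁} := by
    by_contra hcon
    push Not at hcon
    have h3 : (⊤ : Submodule F V) ≤ Submodule.span F {v₁} := fun x _ => hcon x
    have h4 := Submodule.finrank_mono h3
    rw [finrank_top, hV, finrank_span_singleton hv₁0] at h4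
    omega
  have h3' := duality hV hd h2 (finrank_span_pair hv₁0 hu)
  have h4 : 0 < ((holes S fun W => W).filter (· ∈ Submodule.span F {v₁, u})).card := by
    refine Finset.card_pos.2 ⟨v₁, ?_⟩
    rw [Finset.mem_filter]
    exact ⟨h₁, Submodule.subset_span (by simp)⟩
  rw [h3'] at h4
  obtain ⟨δ, hδ⟩ := Finset.card_pos.1 h4
  rw [Finset.mem_filter] at hδ
  have hK : finrank F (LinearMap.ker δ) = 3 := by
    have := Module.Dual.finrank_ker_add_one_of_ne_zero (K := F) (f := δ) (mem_holes.1 hδ.1).1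
    omega
  obtain ⟨j, J⟩ := exists_coord hK
  exact no_plane (planeData hV h2 hd hmax hdS hdq hδ.1 J) (good3 hV h2 hd hdS hdq hδ.1 J) hq hd1 h3

end H84.PS
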