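import Pool.Agent.H84.PS.FullA
import Pool.Agent.H8.PS.Aff

/-!
MP_325208 (helper84): no line has exactly `d` holes when `d + 2 ≤ q`.
-/

set_option autoImplicit false
set_option linter.unusedSectionVars false

open Module Finset Configuration
open scoped Classical LinearAlgebra.Projectivization

namespace H84.PS.Full

open H8.PS

section planar

variable {F : Type*} [Field F] [Fintype F] {B : Finset (ℙ F (Fin 3 → F))} {d m : ℕ}

/-- **No full line.** -/
theorem lt_d (h : PlaneData (ℙ F (Fin 3 → F)) (ℙ F (Fin 3 → F)) (Fintype.card F) d B) (hdm : d + m = Fintype.card F)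
    (hd2 : 2 ≤ d) (hm : 2 ≤ m) (t : ℙ F (Fin 3 → F)) : (on B t).card < d := by
  by_contra hcon
  have ht : (on B t).card = d := le_antisymm (h.le t) (by omega)
  -- three points of `t` which are not holes
  have hsub : on B t ⊆ Finset.univ.filter fun p : ℙ F (Fin 3 → F) => p ∈ t := by
    intro p hp
    rw [mem_on] at hp
    simpa using hp.2
  have hc3 : 2 < ((Finset.univ.filter fun p : ℙ F (Fin 3 → F) => p ∈ t) \ on B t).card := by
    rw [Finset.card_sdiff_of_subset hsub, Pool.Agent.H27.PS.Cnt.card_on, h.order]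
    omega
  obtain ⟨Y₁, hY₁, Y₂, hY₂, Y₃, hY₃, h12, h13, h23⟩ := Finset.two_lt_card.1 hc3
  have hmem : ∀ p, p ∈ (Finset.univ.filter fun p : ℙ F (Fin 3 → F) => p ∈ t) \ on B t → fl t p.rep = 0 ∧ p ∉ B := by
    intro p hp
    rw [Finset.mem_sdiff, Finset.mem_filter, mem_on] at hp
    exact ⟨mem_line.1 hp.1.2, fun hB => hp.2 ⟨hB, hp.1.2⟩⟩
  obtain ⟨t1, b1⟩ := hmem Y₁ hY₁
  obtain ⟨t2, b2⟩ := hmem Y₂ hY₂
  obtain ⟨t3, b3⟩ := hmem Y₃ hY₃
  have hni : Y₁.rep ∉ Submodule.span F {Y₂.rep} := by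
    intro hmem
    obtain ⟨c, hc⟩ := Submodule.mem_span_singleton.1 hmem
    exact h12 (mk_eq_of_smul hc.symm)
  have hK : Submodule.span F {Y₂.rep, Y₁.rep} = Kl t := by
    refine Submodule.eq_of_le_of_finrank_le ?_ (by rw [finrank_Kl, finrank_span_pair Y₂.rep_nonzero hni])
    rw [Submodule.span_le]
    rintro x (rfl | hx)
    · exact t2
    · rw [Set.mem_singleton_iff] at hx; subst hx; exact t1
  have h3K : Y₃.rep ∈ Kl t := t3
  rw [← hK, Submodule.mem_span_pair] at h3K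
  obtain ⟨β, α, h3e⟩ := h3K
  have hα : α ≠ 0 := by
    rintro rfl
    rw [zero_smul, add_zero] at h3e
    exact h23 (mk_eq_of_smul h3e.symm).symm
  have hβ : β ≠ 0 := by
    rintro rfl
    rw [zero_smul, zero_add] at h3e
    exact h13 (mk_eq_of_smul h3e.symm).symm
  have hrep : ∀ {p : ℙ F (Fin 3 → F)}, p ∉ B → ¬ HH B p.rep := by
    rintro p hp ⟨h0, hB⟩
    rw [p.mk_rep] at hB
    exact hp hB
  -- the three directions
  obtain ⟨e₁, he₁⟩ : ∃ e₁, e₁ = β • Y₂.rep := ⟨_, rfl⟩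
  obtain ⟨e₂, he₂⟩ : ∃ e₂, e₂ = α • Y₁.rep := ⟨_, rfl⟩
  have hB₁ : ¬ HH B e₁ := by rw [he₁]; exact fun hh => hrep b2 (HH_smul hβ hh)
  have hB₂ : ¬ HH B e₂ := by rw [he₂]; exact fun hh => hrep b1 (HH_smul hα hh)
  have hB₃ : ¬ HH B (e₁ + e₂) := by rw [he₁, he₂, h3e]; exact hrep b3
  have te₁ : fl t e₁ = 0 := by rw [he₁, map_smul, t2, smul_zero]
  have te₂ : fl t e₂ = 0 := by rw [he₂, map_smul, t1, smul_zero]
  have te₃ : fl t (e₁ + e₂) = 0 := by rw [map_add, te₁, te₂, add_zero]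
  have e₁0 : e₁ ≠ 0 := by rw [he₁]; exact smul_ne_zero hβ Y₂.rep_nonzero
  have e₂0 : e₂ ≠ 0 := by rw [he₂]; exact smul_ne_zero hα Y₁.rep_nonzero
  have e₃0 : e₁ + e₂ ≠ 0 := by rw [he₁, he₂, h3e]; exact Y₃.rep_nonzero
  have hind : ∀ c : F, e₁ ≠ c • e₂ := by
    intro c hc
    rw [he₁, he₂, smul_smul] at hc
    refine h12 (mk_eq_of_smul (c := (c * α)⁻¹ * β) ?_)
    have hc0 : c * α ≠ 0 := by
      intro h0
      rw [h0, zero_smul] at hc
      exact smul_ne_zero hβ Y₂.rep_nonzero hc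
    rw [mul_smul, hc, smul_smul, inv_mul_cancel₀ hc0, one_smul]
  obtain ⟨e₀, te₀⟩ : ∃ e₀, fl t e₀ ≠ 0 := by
    by_contra hall
    push Not at hall
    exact fl_ne t (LinearMap.ext hall)
  have tv : ∀ x y : F, fl t (e₀ + x • e₁ + y • e₂) ≠ 0 := by
    intro x y
    rw [map_add, map_add, map_smul, map_smul, te₁, te₂, smul_zero, smul_zero, add_zero, add_zero]
    exact te₀
  have tb : ∀ (x : F) {e : Fin 3 → F}, fl t e = 0 → fl t (e₀ + x • e) ≠ 0 := by
    intro x e he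
    rw [map_add, map_smul, he, smul_zero, add_zero]
    exact te₀
  -- the function
  have hex : ∀ x : F, ∃ y : F, HH B (e₀ + x • e₁ + y • e₂) := fun x => exists_dir h (tb x te₁) te₂ e₂0 hB₂
  choose φ hφ using hex
  have u2 : ∀ {x y : F}, HH B (e₀ + x • e₁ + y • e₂) → y = φ x := fun {x y} hh =>
    uniq_dir h hdm hd2 ht (tb x te₁) te₂ e₂0 hB₂ hh (hφ x)
  have u1 : ∀ {x x' y : F}, HH B (e₀ + x • e₁ + y • e₂) → HH B (e₀ + x' • e₁ + y • e₂) → x = x' := by
    intro x x' y hh hh'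
    rw [add_right_comm] at hh hh'
    exact uniq_dir h hdm hd2 ht (tb y te₂) te₁ e₁0 hB₁ hh hh'
  have u3 : ∀ {x x' y y' : F}, HH B (e₀ + x • e₁ + y • e₂) → HH B (e₀ + x' • e₁ + y' • e₂) → x - y = x' - y' → y = y' := by
    intro x x' y y' hh hh' hxy
    have r1 : e₀ + x • e₁ + y • e₂ = e₀ + (x - y) • e₁ + y • (e₁ + e₂) := by module
    have r2 : e₀ + x' • e₁ + y' • e₂ = e₀ + (x - y) • e₁ + y' • (e₁ + e₂) := by rw [hxy]; module
    rw [r1] at hh
    rw [r2] at hh'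
    exact uniq_dir h hdm hd2 ht (tb (x - y) te₁) te₃ e₃0 hB₃ hh hh'
  have i1 : Function.Injective φ := by
    intro x x' hxx
    have h1 := hφ x
    have h2 := hφ x'
    rw [← hxx] at h2
    exact u1 h1 h2
  have i2 : Function.Injective fun x => x - φ x := by
    intro x x' hxx
    exact i1 (u3 (hφ x) (hφ x') hxx)
  have hE : ∀ x a, (φ x - φ a) ^ 2 = (x - a) * (φ (a + φ x - φ a) - φ a) := by
    intro x a
    by_cases hxa : x = a
    · subst hxa; ring
    obtain ⟨w, hw⟩ : ∃ w, w = a + φ x - φ a := ⟨_, rfl⟩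
    rw [← hw]
    have hzB : ¬ HH B (e₀ + w • e₁ + φ x • e₂) := by
      intro hz
      have := u3 hz (hφ a) (by rw [hw]; ring)
      exact hxa (i1 this)
    have h1 : HH B (e₀ + w • e₁ + φ x • e₂ + (x - w) • e₁) := by
      have : e₀ + w • e₁ + φ x • e₂ + (x - w) • e₁ = e₀ + x • e₁ + φ x • e₂ := by module
      rw [this]; exact hφ x
    have h2 : HH B (e₀ + w • e₁ + φ x • e₂ + (φ w - φ x) • e₂) := by
      have : e₀ + w • e₁ + φ x • e₂ + (φ w - φ x) • e₂ = e₀ + w • e₁ + φ w • e₂ := by module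
      rw [this]; exact hφ w
    have h3 : HH B (e₀ + w • e₁ + φ x • e₂ + (a - w) • (e₁ + e₂)) := by
      have : e₀ + w • e₁ + φ x • e₂ + (a - w) • (e₁ + e₂) = e₀ + a • e₁ + φ a • e₂ := by
        have : φ a = φ x + (a - w) := by rw [hw]; ring
        rw [this]; module
      rw [this]; exact hφ a
    have h4 := col_dir h hdm hd2 hm ht (tv w (φ x)) hzB te₁ te₂ hind e₂0 hB₁ hB₂ hB₃ h1 h2 h3
    rw [hw] at h4 ⊢
    linear_combination -h4
  obtain ⟨D, hD⟩ := H8.PS.affine_of_eq φ i1 i2 hE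
  -- a line with `q` holes
  obtain ⟨l, hl1, hl2⟩ := exists_l (e₀ + φ 0 • e₂) (e₁ + D • e₂)
  have hlx : ∀ x, fl l (e₀ + x • e₁ + φ x • e₂) = 0 := by
    intro x
    have : e₀ + x • e₁ + φ x • e₂ = (e₀ + φ 0 • e₂) + x • (e₁ + D • e₂) := by rw [hD x]; module
    rw [this, map_add, map_smul, hl1, hl2, smul_zero, add_zero]
  have hle : Fintype.card F ≤ (on B l).card := by
    rw [← Finset.card_univ]
    refine Finset.card_le_card_of_injOn (fun x => Projectivization.mk F (e₀ + x • e₁ + φ x • e₂) (hφ x).1) ?_ ?_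
    · intro x _
      rw [Finset.mem_coe, mem_on]
      exact ⟨(hφ x).2, (mk_mem _).2 (hlx x)⟩
    · intro x _ y _ hxy
      simp only at hxy
      rw [Projectivization.mk_eq_mk_iff'] at hxy
      obtain ⟨c, hc⟩ := hxy
      have h3 := congrArg (fl t) hc
      simp only [map_smul, map_add, te₁, te₂, smul_eq_mul, mul_zero, add_zero] at h3
      have hc1 : c = 1 := by
        have : (c - 1) * fl t e₀ = 0 := by rw [sub_mul, one_mul, h3, sub_self]
        rcases mul_eq_zero.1 this with h4 | h4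
        · exact sub_eq_zero.1 h4
        · exact absurd h4 te₀
      rw [hc1, one_smul] at hc
      by_contra hne
      have hne' : y - x ≠ 0 := sub_ne_zero.2 (Ne.symm hne)
      have h5 : (y - x) • e₁ = (φ x - φ y) • e₂ := by
        have h6 : e₀ + y • e₁ + φ y • e₂ - (e₀ + x • e₁ + φ x • e₂) = 0 := by rw [hc, sub_self]
        have h7 : (y - x) • e₁ - (φ x - φ y) • e₂ = e₀ + y • e₁ + φ y • e₂ - (e₀ + x • e₁ + φ x • e₂) := by module
        rw [h6] at h7
        exact sub_eq_zero.1 h7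
      refine hind ((y - x)⁻¹ * (φ x - φ y)) ?_
      rw [mul_smul, ← h5, smul_smul, inv_mul_cancel₀ hne', one_smul]
  have := h.le l
  omega

end planar

end H84.PS.Full
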