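import Pool.Agent.H97.PS.Pair
import Pool.Agent.H8.PS.Plane

/-!
MP_325208 (helper84): no line has exactly `d` holes when `d + 2 ≤ q`; the planar coordinates.
-/

set_option autoImplicit false
set_option linter.unusedSectionVars false

open Module Finset Configuration
open scoped Classical LinearAlgebra.Projectivization

namespace H84.PS.Full

open H8.PS

section abs

variable {P L : Type*} [Fintype P] [Fintype L] [Membership P L] [ProjectivePlane P L]

/-- the holes off a full line are tangent holes for every point of that line which is not a hole -/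
theorem mem_T_full {B : Finset P} {q d m : ℕ} (h : PlaneData P L q d B) (hdm : d + m = q) {t : L}
    (ht : (on B t).card = d) (hd2 : 2 ≤ d) {Y : P} (hYt : Y ∈ t) (hY : Y ∉ B) {a : P} (ha : a ∈ B) (hat : a ∉ t) :
    a ∈ T L B Y := by
  have h1 := Pool.Agent.H97.PS.T_ge' h hdm (by omega) hYt hY
  have hoff : T L B Y ⊆ B.filter (· ∉ t) := by
    intro b hb
    rw [Finset.mem_filter]
    refine ⟨(H8.PS.mem_T.1 hb).1, fun hbt => ?_⟩
    obtain ⟨x, hx, y, hy, hxy⟩ := Finset.one_lt_card.1 (show 1 < (on B t).card by omega)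
    rw [mem_on] at hx hy
    have e1 := (H8.PS.mem_T.1 hb).2 t hYt hbt x hx.1 hx.2
    have e2 := (H8.PS.mem_T.1 hb).2 t hYt hbt y hy.1 hy.2
    exact hxy (e1.trans e2.symm)
  have hc : (on B t).card + (B.filter (· ∉ t)).card = B.card := Finset.card_filter_add_card_filter_not _
  rw [h.card] at hc
  have heq : T L B Y = B.filter (· ∉ t) := Finset.eq_of_subset_of_card_le hoff (by omega)
  rw [heq, Finset.mem_filter]
  exact ⟨ha, hat⟩

theorem mem_T_Z {B : Finset P} {q d m : ℕ} (h : PlaneData P L q d B) (hdm : d + m = q) {t : L}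
    (ht : (on B t).card = d) (hd2 : 2 ≤ d) {Y : P} (hYt : Y ∈ t) (hY : Y ∉ B) {a : P} (ha : a ∈ B) (hat : a ∉ t)
    {Z : P} (hZ : Z ∉ B) {l : L} (hYl : Y ∈ l) (hal : a ∈ l) (hZl : Z ∈ l) : a ∈ T L B Z := by
  have h1 := mem_T_full h hdm ht hd2 hYt hY ha hat
  rw [H8.PS.mem_T] at h1 ⊢
  refine ⟨ha, fun k hk hak X hX hXk => ?_⟩
  have hkl : k = l := by
    rcases Nondegenerate.eq_or_eq hk hak hZl hal with e | e
    · exact absurd (e ▸ ha) hZ
    · exact e
  exact h1.2 l hYl hal X hX (hkl ▸ hXk)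

theorem col {B : Finset P} {q d m : ℕ} (h : PlaneData P L q d B) (hdm : d + m = q) (hm : 2 ≤ m) {t : L}
    (ht : (on B t).card = d) {Z : P} (hZt : Z ∉ t) (hZ : Z ∉ B) : ∃ l : L, ∀ X ∈ T L B Z, X ∉ t → X ∈ l := by
  have h1 := Pool.Agent.H97.PS.T_off_le' h hZt hZ
  exact h.cb3 Z hZ t (by omega)

end abs

section coord

variable {F : Type*} [Field F] [Fintype F]

/-- vectors over holes -/
def HH (B : Finset (ℙ F (Fin 3 → F))) (v : Fin 3 → F) : Prop := ∃ hv : v ≠ 0, Projectivization.mk F v hv ∈ B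

theorem mk_mem {l : ℙ F (Fin 3 → F)} {v : Fin 3 → F} (hv : v ≠ 0) : Projectivization.mk F v hv ∈ l ↔ fl l v = 0 := by
  rw [Configuration.ofField.mem_iff]
  conv_lhs => rw [← l.mk_rep]
  exact Projectivization.orthogonal_mk _ _

theorem HH_smul {B : Finset (ℙ F (Fin 3 → F))} {v : Fin 3 → F} {c : F} (hc : c ≠ 0) (h : HH B (c • v)) : HH B v := by
  obtain ⟨hv, hB⟩ := h
  have hv' : v ≠ 0 := by rintro rfl; exact hv (smul_zero _)
  refine ⟨hv', ?_⟩
  have : Projectivization.mk F (c • v) hv = Projectivization.mk F v hv' := by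
    rw [Projectivization.mk_eq_mk_iff']
    exact ⟨c, rfl⟩
  rwa [← this]

variable {B : Finset (ℙ F (Fin 3 → F))} {d m : ℕ}

/-- a line through two vectors -/
theorem exists_l (v e : Fin 3 → F) : ∃ l : ℙ F (Fin 3 → F), fl l v = 0 ∧ fl l e = 0 := by
  obtain ⟨l, hl⟩ := exists_Kl (U := Submodule.span F {v, e}) (finrank_span_pair_le v e)
  exact ⟨l, hl (Submodule.subset_span (by simp)), hl (Submodule.subset_span (by simp))⟩

theorem exists_dir (h : PlaneData (ℙ F (Fin 3 → F)) (ℙ F (Fin 3 → F)) (Fintype.card F) d B)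
    {t : ℙ F (Fin 3 → F)} {v e : Fin 3 → F} (hv : fl t v ≠ 0) (he : fl t e = 0) (he0 : e ≠ 0) (heB : ¬ HH B e) :
    ∃ s : F, HH B (v + s • e) := by
  obtain ⟨l, hlv, hle⟩ := exists_l v e
  have hve : v ∉ Submodule.span F {e} := by
    intro hmem
    obtain ⟨c, rfl⟩ := Submodule.mem_span_singleton.1 hmem
    exact hv (by rw [map_smul, he, smul_zero])
  have hK : Submodule.span F {e, v} = Kl l := by
    refine Submodule.eq_of_le_of_finrank_le ?_ (by rw [finrank_Kl, finrank_span_pair he0 hve])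
    rw [Submodule.span_le]
    rintro x (rfl | hx)
    · exact hle
    · rw [Set.mem_singleton_iff] at hx; subst hx; exact hlv
  obtain ⟨X, hX⟩ := Finset.card_pos.1 (h.pos l)
  rw [mem_on] at hX
  have hXl : X.rep ∈ Kl l := mem_line.1 hX.2
  rw [← hK, Submodule.mem_span_pair] at hXl
  obtain ⟨β, α, hw⟩ := hXl
  have hXH : HH B (β • e + α • v) := by
    rw [hw]
    exact ⟨X.rep_nonzero, by rw [X.mk_rep]; exact hX.1⟩
  have hα : α ≠ 0 := by
    rintro rfl
    rw [zero_smul, add_zero] at hXH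
    have hβ : β ≠ 0 := by
      rintro rfl
      exact hXH.1 (zero_smul _ _)
    exact heB (HH_smul hβ hXH)
  refine ⟨β / α, HH_smul hα ?_⟩
  have : α • (v + (β / α) • e) = β • e + α • v := by
    rw [smul_add, smul_smul, mul_div_cancel₀ _ hα, add_comm]
  rw [this]
  exact hXH

theorem uniq_dir (h : PlaneData (ℙ F (Fin 3 → F)) (ℙ F (Fin 3 → F)) (Fintype.card F) d B) (hdm : d + m = Fintype.card F)
    (hd2 : 2 ≤ d) {t : ℙ F (Fin 3 → F)} (ht : (on B t).card = d) {v e : Fin 3 → F} (hv : fl t v ≠ 0)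
    (he : fl t e = 0) (he0 : e ≠ 0) (heB : ¬ HH B e) {s s' : F} (hs : HH B (v + s • e)) (hs' : HH B (v + s' • e)) :
    s = s' := by
  obtain ⟨l, hlv, hle⟩ := exists_l v e
  obtain ⟨h0, hB⟩ := hs
  obtain ⟨h0', hB'⟩ := hs'
  have hY : Projectivization.mk F e he0 ∉ B := fun hh => heB ⟨he0, hh⟩
  have hoff : Projectivization.mk F (v + s • e) h0 ∉ t := by
    rw [mk_mem, map_add, map_smul, he, smul_zero, add_zero]
    exact hv
  have h1 := mem_T_full h hdm ht hd2 ((mk_mem he0).2 he) hY hB hoff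
  have h2 := (H8.PS.mem_T.1 h1).2 l ((mk_mem he0).2 hle) ((mk_mem h0).2 (by rw [map_add, map_smul, hlv, hle]; simp))
    _ hB' ((mk_mem h0').2 (by rw [map_add, map_smul, hlv, hle]; simp))
  rw [Projectivization.mk_eq_mk_iff'] at h2
  obtain ⟨c, hc⟩ := h2
  have h3 := congrArg (fl t) hc
  simp only [map_smul, map_add, he, smul_eq_mul, mul_zero, add_zero] at h3
  have hc1 : c = 1 := by
    have : (c - 1) * fl t v = 0 := by rw [sub_mul, one_mul, h3, sub_self]
    rcases mul_eq_zero.1 this with h4 | h4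
    · exact sub_eq_zero.1 h4
    · exact absurd h4 hv
  rw [hc1, one_smul, add_left_cancel_iff] at hc
  exact smul_left_injective F he0 hc

theorem col_dir (h : PlaneData (ℙ F (Fin 3 → F)) (ℙ F (Fin 3 → F)) (Fintype.card F) d B) (hdm : d + m = Fintype.card F)
    (hd2 : 2 ≤ d) (hm : 2 ≤ m) {t : ℙ F (Fin 3 → F)} (ht : (on B t).card = d) {z e₁ e₂ : Fin 3 → F} (hz : fl t z ≠ 0)
    (hzB : ¬ HH B z) (he₁ : fl t e₁ = 0) (he₂ : fl t e₂ = 0) (hind : ∀ c : F, e₁ ≠ c • e₂) (he20 : e₂ ≠ 0)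
    (hB₁ : ¬ HH B e₁) (hB₂ : ¬ HH B e₂) (hB₃ : ¬ HH B (e₁ + e₂)) {s₁ s₂ s₃ : F} (h₁ : HH B (z + s₁ • e₁))
    (h₂ : HH B (z + s₂ • e₂)) (h₃ : HH B (z + s₃ • (e₁ + e₂))) : s₁ * s₂ = s₃ * (s₁ + s₂) := by
  have hz0 : z ≠ 0 := by rintro rfl; exact hz (map_zero _)
  have he10 : e₁ ≠ 0 := by rintro rfl; exact hind 0 (zero_smul _ _).symm
  have he30 : e₁ + e₂ ≠ 0 := fun h0 => hind (-1) (by rw [neg_one_smul]; exact eq_neg_of_add_eq_zero_left h0)
  have hZB : Projectivization.mk F z hz0 ∉ B := fun hh => hzB ⟨hz0, hh⟩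
  have hZt : Projectivization.mk F z hz0 ∉ t := by rw [mk_mem]; exact hz
  obtain ⟨l, hl⟩ := col h hdm hm ht hZt hZB
  have key : ∀ {e : Fin 3 → F} {s : F}, fl t e = 0 → e ≠ 0 → ¬ HH B e → HH B (z + s • e) → fl l z + s * fl l e = 0 := by
    intro e s he he0 heB hs
    obtain ⟨k, hkz, hke⟩ := exists_l z e
    obtain ⟨h0, hB⟩ := hs
    have hoff : Projectivization.mk F (z + s • e) h0 ∉ t := by
      rw [mk_mem, map_add, map_smul, he, smul_zero, add_zero]
      exact hz
    have h1 := mem_T_Z h hdm ht hd2 ((mk_mem he0).2 he) (fun hh => heB ⟨he0, hh⟩) hB hoff hZB (l := k)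
      ((mk_mem he0).2 hke) ((mk_mem h0).2 (by rw [map_add, map_smul, hkz, hke]; simp)) ((mk_mem hz0).2 hkz)
    have h2 := (mk_mem h0).1 (hl _ h1 hoff)
    rwa [map_add, map_smul, smul_eq_mul] at h2
  have k1 := key he₁ he10 hB₁ h₁
  have k2 := key he₂ he20 hB₂ h₂
  have k3 := key (by rw [map_add, he₁, he₂, add_zero]) he30 hB₃ h₃
  rw [map_add] at k3
  -- not all zero
  have hnz : ¬ (fl l e₁ = 0 ∧ fl l e₂ = 0) := by
    rintro ⟨g1, g2⟩
    have g0 : fl l z = 0 := by rw [g1, mul_zero, add_zero] at k1; exact k1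
    have hni : e₁ ∉ Submodule.span F {e₂} := by
      intro hmem
      obtain ⟨c, hc⟩ := Submodule.mem_span_singleton.1 hmem
      exact hind c hc.symm
    have hK : ∀ k : ℙ F (Fin 3 → F), fl k e₁ = 0 → fl k e₂ = 0 → Submodule.span F {e₂, e₁} = Kl k := by
      intro k hk1 hk2
      refine Submodule.eq_of_le_of_finrank_le ?_ (by rw [finrank_Kl, finrank_span_pair he20 hni])
      rw [Submodule.span_le]
      rintro x (rfl | hx)
      · exact hk2
      · rw [Set.mem_singleton_iff] at hx; subst hx; exact hk1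
    have h5 : z ∈ Kl t := by
      rw [← hK t he₁ he₂, hK l g1 g2]
      exact g0
    exact hz h5
  generalize fl l z = a0 at *
  generalize fl l e₁ = a1 at *
  generalize fl l e₂ = a2 at *
  by_cases ha : a0 = 0
  · subst ha
    rw [zero_add] at k1 k2 k3
    rcases mul_eq_zero.1 k1 with h1 | h1
    · rcases mul_eq_zero.1 k2 with h2 | h2
      · rw [h1, h2]; ring
      · rw [h2, add_zero] at k3
        rcases mul_eq_zero.1 k3 with h3 | h3
        · rw [h1, h3]; ring
        · exact absurd ⟨h3, h2⟩ hnz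
    · rcases mul_eq_zero.1 k2 with h2 | h2
      · rw [h1, zero_add] at k3
        rcases mul_eq_zero.1 k3 with h3 | h3
        · rw [h2, h3]; ring
        · exact absurd ⟨h1, h3⟩ hnz
      · exact absurd ⟨h1, h2⟩ hnz
  · have : a0 * (s₁ * s₂ - s₃ * (s₁ + s₂)) = 0 := by
      linear_combination s₁ * s₂ * k3 - s₃ * s₂ * k1 - s₃ * s₁ * k2
    rcases mul_eq_zero.1 this with h1 | h1
    · exact absurd h1 ha
    · exact sub_eq_zero.1 h1

end coord

end H84.PS.Full
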