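import Pool.Agent.H84.PS.Full

/-!
MP_325208 (helper84): if `d + 2 ≤ q` then every line has at most `d - 1` holes.
-/

set_option autoImplicit false
set_option linter.unusedSectionVars false

open Module Finset
open scoped Classical LinearAlgebra.Projectivization

namespace H84.PS

open H8.PS

variable {F : Type*} [Field F] [Fintype F]
variable {V : Type*} [AddCommGroup V] [Module F V] [Fintype V] [FiniteDimensional F V]

/-- **No line has `d` holes.** -/
theorem holes_lt (hV : finrank F V = 4) {S : Finset (Submodule F V)} (h2 : ∀ W ∈ S, finrank F W = 2)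
    (hd : ∀ W ∈ S, ∀ W' ∈ S, W ≠ W' → W ⊓ W' = ⊥)
    (hmax : ∀ U : Submodule F V, finrank F U = 2 → U ∉ S → ∃ W ∈ S, U ⊓ W ≠ ⊥)
    (hh : ∃ v : V, v ≠ 0 ∧ ∀ W ∈ S, v ∉ W) {d : ℕ} (hdS : d + S.card = Fintype.card F ^ 2 + 1)
    (hdq : d + 2 ≤ Fintype.card F) {U : Submodule F V} (hU : finrank F U = 2) :
    {X : Submodule F V | finrank F X = 1 ∧ X ≤ U ∧ ∀ W ∈ S, ¬ X ≤ W}.ncard < d := by
  have hq : 1 < Fintype.card F := Fintype.one_lt_card
  have hhalf := H8.PS.main hV h2 hd hmax hh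
  obtain ⟨m, hm⟩ : ∃ m, d + m = Fintype.card F := ⟨Fintype.card F - d, by omega⟩
  have hd2 : 2 ≤ d := by omega
  -- the generators of the points
  have hgen : ∀ X : Submodule F V, finrank F X = 1 → ∃ v ∈ X, v ≠ 0 ∧ X = Submodule.span F {v} := by
    intro X hX
    have hX0 : X ≠ ⊥ := by
      rintro rfl
      rw [finrank_bot] at hX
      omega
    obtain ⟨v, hv, hv0⟩ := Submodule.exists_mem_ne_zero_of_ne_bot hX0
    refine ⟨v, hv, hv0, ?_⟩
    symm
    refine Submodule.eq_of_le_of_finrank_le ?_ (by rw [hX, finrank_span_singleton hv0])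
    rw [Submodule.span_le]
    simpa using hv
  by_cases hne : ∃ v ∈ U, v ∈ holes S fun W => W
  swap
  · have hemp : {X : Submodule F V | finrank F X = 1 ∧ X ≤ U ∧ ∀ W ∈ S, ¬ X ≤ W} = ∅ := by
      rw [Set.eq_empty_iff_forall_notMem]
      rintro X ⟨hX, hXU, hXS⟩
      obtain ⟨v, hv, hv0, hXv⟩ := hgen X hX
      refine hne ⟨v, hXU hv, mem_holes.2 ⟨hv0, fun W hW hvW => hXS W hW ?_⟩⟩
      rw [hXv, Submodule.span_le]
      simpa using hvW
    rw [hemp, Set.ncard_empty]
    omega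
  obtain ⟨v₀, hv₀U, hv₀⟩ := hne
  have h3 := duality hV hd h2 hU
  have h4 : 0 < ((holes S fun W => W).filter (· ∈ U)).card :=
    Finset.card_pos.2 ⟨v₀, Finset.mem_filter.2 ⟨hv₀, hv₀U⟩⟩
  rw [h3] at h4
  obtain ⟨δ, hδ⟩ := Finset.card_pos.1 h4
  rw [Finset.mem_filter, Submodule.mem_dualAnnihilator] at hδ
  have hK : finrank F (LinearMap.ker δ) = 3 := by
    have := Module.Dual.finrank_ker_add_one_of_ne_zero (K := F) (f := δ) (mem_holes.1 hδ.1).1
    omega
  obtain ⟨j, J⟩ := exists_coord hK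
  have hPD := planeData hV h2 hd hmax hdS (by omega) hδ.1 J
  -- the line of `U`
  obtain ⟨l, hl⟩ := exists_Kl (U := U.comap j) (by
    rw [(Submodule.equivMapOfInjective j J.inj _).finrank_eq, ← hU]
    exact Submodule.finrank_mono (Submodule.map_comap_le _ _))
  have hfew := Full.lt_d hPD hm hd2 (by omega) l
  -- the map
  have hpt : ∀ X : Submodule F V, ∃ p : ℙ F (Fin 3 → F), (finrank F X = 1 ∧ X ≤ U ∧ ∀ W ∈ S, ¬ X ≤ W) →
      vec j p ∈ X ∧ p ∈ on (BB S j) l := by
    intro X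
    by_cases hX : finrank F X = 1 ∧ X ≤ U ∧ ∀ W ∈ S, ¬ X ≤ W
    · obtain ⟨v, hv, hv0, hXv⟩ := hgen X hX.1
      obtain ⟨p, c, hc0, hp⟩ := J.exists_point hv0 (hδ.2 v (hX.2.1 hv))
      have hpX : vec j p ∈ X := by rw [hp]; exact X.smul_mem _ hv
      refine ⟨p, fun _ => ⟨hpX, ?_⟩⟩
      rw [on, Finset.mem_filter, mem_BB, mem_line]
      refine ⟨mem_holes.2 ⟨J.vec_ne p, fun W hW hW' => hX.2.2 W hW ?_⟩, ?_⟩
      · rw [hXv, Submodule.span_le, Set.singleton_subset_iff]
        rw [hp] at hW'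
        exact (Submodule.smul_mem_iff _ hc0).1 hW'
      · exact hl (show j p.rep ∈ U from hX.2.1 hpX)
    · obtain ⟨p, -, -⟩ := J.exists_point (mem_holes.1 hv₀).1 (hδ.2 v₀ hv₀U)
      exact ⟨p, fun h => absurd h hX⟩
  choose f hf using hpt
  have hcard : {X : Submodule F V | finrank F X = 1 ∧ X ≤ U ∧ ∀ W ∈ S, ¬ X ≤ W}.ncard ≤ (on (BB S j) l).card := by
    rw [← Set.ncard_coe_finset]
    refine Set.ncard_le_ncard_of_injOn f ?_ ?_ (Finset.finite_toSet _)
    · intro X hX
      exact (hf X hX).2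
    · intro X hX Y hY hXY
      have e1 := (hf X hX).1
      have e2 := (hf Y hY).1
      rw [← hXY] at e2
      have h0 := J.vec_ne (f X)
      have g1 : Submodule.span F {vec j (f X)} = X := Submodule.eq_of_le_of_finrank_le
        (by rw [Submodule.span_le, Set.singleton_subset_iff]; exact e1) (by rw [hX.1, finrank_span_singleton h0])
      have g2 : Submodule.span F {vec j (f X)} = Y := Submodule.eq_of_le_of_finrank_le
        (by rw [Submodule.span_le, Set.singleton_subset_iff]; exact e2) (by rw [hY.1, finrank_span_singleton h0])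
      rw [← g1, g2]
  exact lt_of_le_of_lt hcard hfew

end H84.PS
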