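import Pool.Agent.H8.PS.Plane

/-!
MP_325208 (helper84): the Cayley-Bacharach condition for the tangent holes of a point of a rich plane, in coordinates.
-/

set_option autoImplicit false
set_option linter.unusedSectionVars false

open Module Finset
open scoped Classical LinearAlgebra.Projectivization

namespace H84.PS

open H8.PS

variable {F : Type*} [Field F] [Fintype F]
variable {V : Type*} [AddCommGroup V] [Module F V] [Fintype V] [FiniteDimensional F V]

theorem good_pull {V' : Type*} [AddCommGroup V'] [Module F V'] [Fintype V'] (j : V' →ₗ[F] V)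
    (hj : Function.Injective j) {R : Finset V} (hR : ∀ v ∈ R, ∃ x, j x = v) {w : V → F} {k m : ℕ} (h : Good R w k m) :
    Good (Finset.univ.filter fun x => j x ∈ R) (fun x => w (j x)) k m := by
  obtain ⟨g, hg⟩ := LinearMap.exists_leftInverse_of_injective j (LinearMap.ker_eq_bot.2 hj)
  have hgj : ∀ x, g (j x) = x := fun x => by
    have := congrArg (fun f => f x) hg
    simpa using this
  refine ⟨h.deg, ?_, ?_, ?_, ?_, ?_⟩
  · intro v hv hv0
    rw [Finset.mem_filter] at hv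
    exact h.ne _ hv.2 (by rw [hv0, map_zero])
  · intro v hv c hc
    rw [Finset.mem_filter] at hv ⊢
    exact ⟨Finset.mem_univ _, by rw [map_smul]; exact h.cone _ hv.2 c hc⟩
  · intro v hv
    rw [Finset.mem_filter] at hv
    exact h.wne _ hv.2
  · intro v c hc
    simp only [map_smul]
    exact h.whom _ c hc
  · intro L
    have h1 := h.id fun i => (L i).comp g
    rw [← h1]
    have h2 : R = (Finset.univ.filter fun x => j x ∈ R).image j := by
      ext v
      rw [Finset.mem_image]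
      constructor
      · intro hv
        obtain ⟨x, rfl⟩ := hR v hv
        exact ⟨x, Finset.mem_filter.2 ⟨Finset.mem_univ _, hv⟩, rfl⟩
      · rintro ⟨x, hx, rfl⟩
        exact (Finset.mem_filter.1 hx).2
    conv_rhs => rw [h2]
    rw [Finset.sum_image fun a _ b _ hab => hj hab]
    refine Finset.sum_congr rfl fun x _ => ?_
    simp [hgj]

theorem good3 (hV : finrank F V = 4) {S : Finset (Submodule F V)} (h2 : ∀ W ∈ S, finrank F W = 2)
    (hd : ∀ W ∈ S, ∀ W' ∈ S, W ≠ W' → W ⊓ W' = ⊥)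
    {d : ℕ} (hdS : d + S.card = Fintype.card F ^ 2 + 1) (hdq : d < Fintype.card F)
    {δ : Dual F V} (hδ : δ ∈ holes S fun W => W.dualAnnihilator) {j : (Fin 3 → F) →ₗ[F] V} (J : Coord δ j) :
    ∀ Z ∉ BB S j, ∃ (R : Finset (Fin 3 → F)) (w : (Fin 3 → F) → F) (k m : ℕ), Good R w k m ∧
      Fintype.card F ≤ m + d ∧ ∀ X : ℙ F (Fin 3 → F), X.rep ∈ R ↔ X ∈ T (ℙ F (Fin 3 → F)) (BB S j) Z := by
  have hq : 1 < Fintype.card F := Fintype.one_lt_card
  have hdz : (Fintype.card F : ℤ) ^ 2 + 1 - S.card = d := by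
    have : ((d + S.card : ℕ) : ℤ) = ((Fintype.card F ^ 2 + 1 : ℕ) : ℤ) := by rw [hdS]
    push_cast at this; linarith
  -- the configuration of a covered point of the plane
  have hconf : ∀ Z ∉ BB S j, ∃ E : V, Conf (F := F) S (vec j Z) E ∧ ∃ δ' ∈ DD S (vec j Z) E, ∃ c : F, c ≠ 0 ∧ δ' = c • δ := by
    intro Z hZ
    rw [mem_BB, mem_holes] at hZ
    push Not at hZ
    obtain ⟨W, hW, hZW⟩ := hZ (J.vec_ne Z)
    obtain ⟨E, hEW, hE⟩ : ∃ E ∈ W, E ∉ Submodule.span F {vec j Z} := by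
      by_contra hcon3
      push Not at hcon3
      have h3 : W ≤ Submodule.span F {vec j Z} := hcon3
      have h4 := Submodule.finrank_mono h3
      rw [h2 W hW, finrank_span_singleton (J.vec_ne Z)] at h4
      omega
    have C : Conf (F := F) S (vec j Z) E := ⟨hV, hd, h2, J.vec_ne Z, ⟨W, hW, hZW, hEW⟩, hE⟩
    exact ⟨E, C, _, C.norm hδ (J.vec_ker Z), _, inv_ne_zero (C.E_ne hδ (J.vec_ker Z)), rfl⟩
  intro Z hZ
  obtain ⟨E, C, δ', hδ', c, hc, hcδ⟩ := hconf Z hZ
  have hker : ∀ v, δ' v = 0 → δ v = 0 := by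
    intro v hv
    rw [hcδ, LinearMap.smul_apply, smul_eq_mul] at hv
    exact (mul_eq_zero.1 hv).resolve_left hc
  obtain ⟨W, hW, hZW, -⟩ := C.ex
  have hD := card_DD hV hd h2 (E := E) hW hZW (J.vec_ne Z)
  rw [hdz] at hD
  have hD' : (DD S (vec j Z) E).card ≤ d := by exact_mod_cast hD
  have hDpos : 1 ≤ (DD S (vec j Z) E).card := Finset.card_pos.2 ⟨_, hδ'⟩
  have hk1 : ((DD S (vec j Z) E).erase δ').card + 1 = (DD S (vec j Z) E).card := by
    rw [Finset.card_erase_of_mem hδ']; omega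
  obtain ⟨m, hm⟩ : ∃ m, ((DD S (vec j Z) E).erase δ').card + m = Fintype.card F - 1 :=
    ⟨Fintype.card F - 1 - ((DD S (vec j Z) E).erase δ').card, by omega⟩
  have hgood := C.good hδ' hm
  refine ⟨_, _, _, m, good_pull j J.inj (fun v hv => (J.range v).1 (hker v (C.RR_ker hv))) hgood, by omega, ?_⟩
  intro X
  rw [Finset.mem_filter]
  have hX1 : j X.rep = vec j X := rfl
  rw [hX1]
  have hTdef : X ∈ T (ℙ F (Fin 3 → F)) (BB S j) Z ↔ X ∈ BB S j ∧
      ∀ l : ℙ F (Fin 3 → F), Z ∈ l → X ∈ l → ∀ Y ∈ BB S j, Y ∈ l → Y = X := mem_T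
  rw [hTdef, mem_RR]
  constructor
  · rintro ⟨-, hX, hu⟩
    refine ⟨mem_BB.2 hX, fun l hZl hXl Y hY hYl => ?_⟩
    have hne : X ≠ Z := by rintro rfl; exact hZ (mem_BB.2 hX)
    have h5 := (line_span hne hZl hXl).1 hYl
    have h6 := C.tangent_of_unique hX hu _ (mem_BB.1 hY) (J.span_iff.2 h5)
    exact J.eq_of_span h6
  · rintro ⟨hX, ht⟩
    refine ⟨Finset.mem_univ _, mem_BB.1 hX, fun θ hθ hne h0 => hne ?_⟩
    have hXZ : X ≠ Z := by rintro rfl; exact hZ hX
    refine C.unique_of_tangent (mem_BB.1 hX) ?_ hδ' hθ ?_ h0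
    · intro x hx hxs
      have hx0 : x ≠ 0 := (mem_holes.1 hx).1
      have hxδ : δ x = 0 := by
        obtain ⟨a, b, rfl⟩ := Submodule.mem_span_pair.1 hxs
        simp [J.vec_ker]
      obtain ⟨Y, c', hc', hY⟩ := J.exists_point hx0 hxδ
      have hYB : Y ∈ BB S j := by rw [mem_BB, hY]; exact smul_mem_holes hx hc'
      let l : ℙ F (Fin 3 → F) := Configuration.HasLines.mkLine hXZ
      have hl := Configuration.HasLines.mkLine_ax (P := ℙ F (Fin 3 → F)) (L := ℙ F (Fin 3 → F)) hXZ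
      have hYl : Y ∈ l := by
        rw [line_span hXZ hl.2 hl.1, ← J.span_iff, hY]
        exact Submodule.smul_mem _ _ hxs
      have hYX := ht l hl.2 hl.1 Y hYB hYl
      rw [hYX] at hY
      rw [Submodule.mem_span_singleton]
      exact ⟨c'⁻¹, by rw [hY, smul_smul, inv_mul_cancel₀ hc', one_smul]⟩
    · rw [hcδ, LinearMap.smul_apply, J.vec_ker, smul_zero]

end H84.PS
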