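import Pool.Agent.H8.PS.CB

/-!
MP_325208 (helper84): counting rays in cones, the Cayley-Bacharach lemma in terms of rays, and filtering by quadratic functions.
-/

set_option autoImplicit false
set_option linter.unusedSectionVars false

open Module Finset
open scoped Classical

namespace H84.PS

open H8.PS

variable {F : Type*} [Field F] [Fintype F] {V : Type*} [AddCommGroup V] [Module F V] [Fintype V]

variable (F) in
/-- cones without zero -/
def IsCone (T : Finset V) : Prop := (∀ v ∈ T, v ≠ 0) ∧ ∀ v ∈ T, ∀ c : F, c ≠ 0 → c • v ∈ T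

variable (F) in
/-- the number of rays of a cone -/
noncomputable def pts (T : Finset V) : ℕ := T.card / (Fintype.card F - 1)

omit [Fintype V] in
theorem q1 : 1 ≤ Fintype.card F - 1 := by have : 1 < Fintype.card F := Fintype.one_lt_card; omega

theorem card_eq {T : Finset V} (hT : IsCone F T) : T.card = pts F T * (Fintype.card F - 1) := by
  have key : ∀ n : ℕ, ∀ T : Finset V, IsCone F T → T.card = n → (Fintype.card F - 1) ∣ T.card := by
    intro n
    induction n using Nat.strong_induction_on with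
    | _ n ih =>
      intro T hT hn
      by_cases he : T = ∅
      · subst he; simp
      · obtain ⟨v, hv⟩ := Finset.nonempty_iff_ne_empty.2 he
        have hs : ray F v ⊆ T := ray_subset hT.2 hv
        have hc := card_ray (F := F) (hT.1 v hv)
        have hcs : (T \ ray F v).card + (ray F v).card = T.card := Finset.card_sdiff_add_card_eq_card hs
        have h1 := q1 (F := F)
        have hcone : IsCone F (T \ ray F v) := by
          refine ⟨fun x hx => hT.1 x (Finset.mem_sdiff.1 hx).1, fun x hx c hc0 => ?_⟩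
          rw [Finset.mem_sdiff] at hx ⊢
          refine ⟨hT.2 x hx.1 c hc0, fun h => hx.2 ?_⟩
          obtain ⟨e, he0, hev⟩ := mem_ray.1 h
          exact mem_ray.2 ⟨c⁻¹ * e, mul_ne_zero (inv_ne_zero hc0) he0, by
            rw [mul_smul, hev, smul_smul, inv_mul_cancel₀ hc0, one_smul]⟩
        have h2 := ih (T \ ray F v).card (by omega) _ hcone rfl
        rw [← hcs]
        exact Nat.dvd_add h2 (by rw [hc])
  have h := key _ T hT rfl
  rw [pts, Nat.div_mul_cancel h]

theorem pts_mono {T T' : Finset V} (h : T ⊆ T') : pts F T ≤ pts F T' :=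
  Nat.div_le_div_right (Finset.card_le_card h)

theorem pts_le_of_card {T : Finset V} (hT : IsCone F T) {n : ℕ} (h : T.card ≤ n * (Fintype.card F - 1)) : pts F T ≤ n := by
  rw [card_eq hT] at h
  exact Nat.le_of_mul_le_mul_right h (lt_of_lt_of_le one_pos q1)

theorem le_pts_of_card {T : Finset V} (hT : IsCone F T) {n : ℕ} (h : n * (Fintype.card F - 1) ≤ T.card) : n ≤ pts F T := by
  rw [card_eq hT] at h
  exact Nat.le_of_mul_le_mul_right h (lt_of_lt_of_le one_pos q1)

theorem pts_union {T T' U : Finset V} (hT : IsCone F T) (hT' : IsCone F T') (hU : IsCone F U) (hd : Disjoint T T')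
    (h1 : T ⊆ U) (h2 : T' ⊆ U) : pts F T + pts F T' ≤ pts F U := by
  apply le_pts_of_card hU
  rw [add_mul, ← card_eq hT, ← card_eq hT', ← Finset.card_union_of_disjoint hd]
  exact Finset.card_le_card (Finset.union_subset h1 h2)

theorem pts_le_union {T T' U : Finset V} (hT : IsCone F T) (hT' : IsCone F T') (hU : IsCone F U)
    (h : U ⊆ T ∪ T') : pts F U ≤ pts F T + pts F T' := by
  apply pts_le_of_card hU
  rw [add_mul, ← card_eq hT, ← card_eq hT']
  exact (Finset.card_le_card h).trans (Finset.card_union_le _ _)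

theorem cone_filter {T : Finset V} (hT : IsCone F T) (p : V → Prop) (hp : ∀ v, ∀ c : F, c ≠ 0 → p v → p (c • v)) :
    IsCone F (T.filter p) := by
  refine ⟨fun v hv => hT.1 v (Finset.mem_filter.1 hv).1, fun v hv c hc => ?_⟩
  rw [Finset.mem_filter] at hv ⊢
  exact ⟨hT.2 v hv.1 c hc, hp v c hc hv.2⟩

theorem pts_pos {T : Finset V} (hT : IsCone F T) (h : T.Nonempty) : 1 ≤ pts F T := by
  apply le_pts_of_card hT
  obtain ⟨v, hv⟩ := h
  rw [one_mul, ← card_ray (F := F) (hT.1 v hv)]
  exact Finset.card_le_card (ray_subset hT.2 hv)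

/-- a further ray -/
theorem exists_new {T : Finset V} (hT : IsCone F T) (s : Finset V) (h : s.card < pts F T) :
    ∃ v ∈ T, ∀ u ∈ s, v ∉ Submodule.span F {u} := by
  by_contra hcon
  push Not at hcon
  have hsub : T ⊆ s.biUnion fun u => ray F u := by
    intro v hv
    obtain ⟨u, hu, hvu⟩ := hcon v hv
    rw [Finset.mem_biUnion]
    refine ⟨u, hu, ?_⟩
    obtain ⟨c, rfl⟩ := Submodule.mem_span_singleton.1 hvu
    refine mem_ray.2 ⟨c, ?_, rfl⟩
    rintro rfl
    exact hT.1 _ hv (zero_smul _ _)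
  have h1 : (s.biUnion fun u => ray F u).card ≤ s.card * (Fintype.card F - 1) := by
    refine Finset.card_biUnion_le_card_mul _ _ _ fun u _ => ?_
    rw [← card_ne_zero_filter (F := F)]
    exact Finset.card_image_le
  have h2 := pts_le_of_card hT ((Finset.card_le_card hsub).trans h1)
  omega

/-- pairwise independent vectors in a cone -/
theorem card_le_pts {T : Finset V} (hT : IsCone F T) {n : ℕ} (x : Fin n → V) (hx : ∀ i, x i ∈ T)
    (hi : ∀ i j, i ≠ j → x i ∉ Submodule.span F {x j}) : n ≤ pts F T := by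
  apply le_pts_of_card hT
  have hsub : (Finset.univ : Finset (Fin n)).biUnion (fun i => ray F (x i)) ⊆ T := by
    intro v hv
    rw [Finset.mem_biUnion] at hv
    obtain ⟨i, -, hi⟩ := hv
    exact ray_subset hT.2 (hx i) hi
  refine le_trans (le_of_eq ?_) (Finset.card_le_card hsub)
  rw [Finset.card_biUnion]
  · rw [Finset.sum_congr rfl fun i _ => card_ray (F := F) (hT.1 _ (hx i))]
    simp
  · intro i _ j _ hij
    change Disjoint (ray F (x i)) (ray F (x j))
    rw [Finset.disjoint_left]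
    intro y hy hy2
    obtain ⟨c, hc, rfl⟩ := mem_ray.1 hy
    obtain ⟨d, hd, hd2⟩ := mem_ray.1 hy2
    apply hi i j hij
    rw [Submodule.mem_span_singleton]
    exact ⟨c⁻¹ * d, by rw [mul_smul, hd2, smul_smul, inv_mul_cancel₀ hc, one_smul]⟩

theorem good_cone {R : Finset V} {w : V → F} {k m : ℕ} (h : Good R w k m) : IsCone F R := ⟨h.ne, h.cone⟩

theorem cb_pts {m : ℕ} {R : Finset V} {w : V → F} {k : ℕ} (h : Good R w k m) (hR : R.Nonempty) :
    m + 2 ≤ pts F R ∧ (pts F R ≤ 2 * m + 1 → ∃ a b : V, ∀ v ∈ R, v ∈ Submodule.span F {a, b}) := by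
  obtain ⟨h1, h2⟩ := Good.cb m h hR
  refine ⟨le_pts_of_card (good_cone h) h1, fun h3 => h2 ?_⟩
  rw [card_eq (good_cone h)]
  exact Nat.mul_le_mul_right _ h3

/-- sums of two products of linear functionals -/
def IsQ (g : V → F) : Prop :=
  ∃ (a b : F) (L₁ L₂ L₃ L₄ : Dual F V), ∀ v, g v = a * (L₁ v * L₂ v) + b * (L₃ v * L₄ v)

omit [Fintype F] [Fintype V] in
theorem IsQ.smul {g : V → F} (hg : IsQ g) (c : F) (v : V) : g (c • v) = c ^ 2 * g v := by
  obtain ⟨a, b, L₁, L₂, L₃, L₄, h⟩ := hg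
  rw [h, h]
  simp only [map_smul, smul_eq_mul]
  ring

omit [Fintype F] [Fintype V] in
theorem IsQ.polar {g : V → F} (hg : IsQ g) :
    ∃ B : V →ₗ[F] V →ₗ[F] F, ∀ x y, g (x + y) = g x + g y + B x y := by
  obtain ⟨a, b, L₁, L₂, L₃, L₄, h⟩ := hg
  refine ⟨LinearMap.mk₂ F (fun x y => a * (L₁ x * L₂ y + L₁ y * L₂ x) + b * (L₃ x * L₄ y + L₃ y * L₄ x)) ?_ ?_ ?_ ?_, ?_⟩
  · intro x x' y; simp only [map_add]; ring
  · intro c x y; simp only [map_smul, smul_eq_mul]; ring
  · intro x y y'; simp only [map_add]; ring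
  · intro c x y; simp only [map_smul, smul_eq_mul]; ring
  · intro x y
    rw [h, h, h, LinearMap.mk₂_apply]
    simp only [map_add]
    ring

/-- the zeros of `g` in `R` -/
noncomputable def zer (R : Finset V) (g : V → F) : Finset V := R.filter fun v => g v = 0

/-- the nonzeros of `g` in `R` -/
noncomputable def off (R : Finset V) (g : V → F) : Finset V := R.filter fun v => g v ≠ 0

theorem mem_zer {R : Finset V} {g : V → F} {v : V} : v ∈ zer R g ↔ v ∈ R ∧ g v = 0 := by simp [zer]

theorem mem_off {R : Finset V} {g : V → F} {v : V} : v ∈ off R g ↔ v ∈ R ∧ g v ≠ 0 := by simp [off]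

theorem cone_zer {T : Finset V} (hT : IsCone F T) {g : V → F} (hg : ∀ v, ∀ c : F, g v = 0 → g (c • v) = 0) :
    IsCone F (zer T g) := by
  refine ⟨fun v hv => hT.1 v (mem_zer.1 hv).1, fun v hv c hc => ?_⟩
  rw [mem_zer] at hv ⊢
  exact ⟨hT.2 v hv.1 c hc, hg v c hv.2⟩

theorem cone_off {T : Finset V} (hT : IsCone F T) {g : V → F} (hg : ∀ v, ∀ c : F, c ≠ 0 → g v ≠ 0 → g (c • v) ≠ 0) :
    IsCone F (off T g) := by
  refine ⟨fun v hv => hT.1 v (mem_off.1 hv).1, fun v hv c hc => ?_⟩
  rw [mem_off] at hv ⊢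
  exact ⟨hT.2 v hv.1 c hc, hg v c hc hv.2⟩

theorem zer_off {T : Finset V} (hT : IsCone F T) {g : V → F} (h0 : IsCone F (zer T g)) (h1 : IsCone F (off T g)) :
    pts F (zer T g) + pts F (off T g) ≤ pts F T := by
  refine pts_union h0 h1 hT ?_ (Finset.filter_subset _ _) (Finset.filter_subset _ _)
  rw [Finset.disjoint_left]
  intro x hx hx2
  exact (mem_off.1 hx2).2 (mem_zer.1 hx).2

theorem off_empty {T : Finset V} {g : V → F} (h : ¬ (off T g).Nonempty) : ∀ v ∈ T, g v = 0 := by
  intro v hv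
  by_contra hcon
  exact h ⟨v, mem_off.2 ⟨hv, hcon⟩⟩

theorem good_off {R : Finset V} {w : V → F} {k m : ℕ} (h : Good R w k (m + 1)) (L : Dual F V) :
    Good (off R L) (fun v => w v * L v) (k + 1) m := by
  have := h.filter L
  unfold off
  convert this

theorem good_filterQ {R : Finset V} {w : V → F} {k m : ℕ} (h : Good R w k (m + 2)) {g : V → F} (hg : IsQ g) :
    Good (off R g) (fun v => w v * g v) (k + 2) m := by
  unfold off
  refine ⟨by have := h.deg; omega, fun v hv => h.ne v (Finset.mem_filter.1 hv).1, ?_, ?_, ?_, ?_⟩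
  · intro v hv c hc
    rw [Finset.mem_filter] at hv ⊢
    refine ⟨h.cone v hv.1 c hc, ?_⟩
    rw [hg.smul]; exact mul_ne_zero (pow_ne_zero _ hc) hv.2
  · intro v hv
    rw [Finset.mem_filter] at hv
    exact mul_ne_zero (h.wne v hv.1) hv.2
  · intro v c hc
    simp only [h.whom v c hc, hg.smul]
    ring
  · intro L'
    obtain ⟨a, b, L₁, L₂, L₃, L₄, hgv⟩ := hg
    have h1 := h.id (Fin.cons L₁ (Fin.cons L₂ L'))
    have h2 := h.id (Fin.cons L₃ (Fin.cons L₄ L'))
    rw [Finset.sum_filter]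
    have h3 : ∑ v ∈ R, (if g v ≠ 0 then w v * g v * ∏ i, L' i v else 0) =
        a * (∑ v ∈ R, w v * ∏ i, (Fin.cons L₁ (Fin.cons L₂ L') : Fin (m + 2) → Dual F V) i v) +
        b * (∑ v ∈ R, w v * ∏ i, (Fin.cons L₃ (Fin.cons L₄ L') : Fin (m + 2) → Dual F V) i v) := by
      rw [Finset.mul_sum, Finset.mul_sum, ← Finset.sum_add_distrib]
      refine Finset.sum_congr rfl fun v _ => ?_
      rw [Fin.prod_univ_succ, Fin.prod_univ_succ, Fin.prod_univ_succ, Fin.prod_univ_succ]
      simp only [Fin.cons_zero, Fin.cons_succ]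
      by_cases hv : g v = 0
      · rw [if_neg (by simpa using hv)]
        rw [hgv] at hv
        have : a * (w v * (L₁ v * (L₂ v * ∏ i, L' i v))) + b * (w v * (L₃ v * (L₄ v * ∏ i, L' i v))) =
          (a * (L₁ v * L₂ v) + b * (L₃ v * L₄ v)) * (w v * ∏ i, L' i v) := by ring
        rw [this, hv, zero_mul]
      · rw [if_pos hv, hgv]; ring
    rw [h3, h1, h2]; simp

end H84.PS
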